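import Mathlib
import Pool.Agent.MCL.KIN

/-!
Measure classification, module DIN: the distance of two stages.

Sketch. `dd_eq`: for `n > max |β| |β'|` both vectors are `[none]` (`KK_eq_none`), distance `0`
(`l1_self`). `l1_le_dd`: if `n > max ..` the left side is `0`; otherwise it is one term. `dd_good`:
the terms with `n ≤ m` are `≤ 2^(-n-1) * 10 / 16^(m-n)`, sum `≤ 2^(-m-1) * 10 * 8/7`; the terms with
`n > m` are `≤ 2 * 2^(-n-1)`, sum `≤ 2^-m`; together `≤ 8 / 2^m`.
-/

set_option autoImplicit false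

namespace Pool.Agent.MCL

open MeasureTheory Encodable Pool.Agent.H19 Pool.Agent.AEI Pool.Agent.RJ
open Nat.Partrec (Code)

variable {M : ℕ} {lab : List Bool → Code} {r : Code} {P : ℕ → Bool}

private theorem term_zero (β β' : List Bool) {n : ℕ} (h : max β.length β'.length < n) :
    l1 (KK M lab r β n) (KK M lab r β' n) = 0 := by
  rw [KK_eq_none (lt_of_le_of_lt (le_max_left _ _) h),
    KK_eq_none (lt_of_le_of_lt (le_max_right _ _) h)]
  exact l1_self _

theorem dd_eq (β β' : List Bool) {N : ℕ} (h : β.length ≤ N) (h' : β'.length ≤ N) :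
    dd M lab r β β' =
      ∑ n ∈ Finset.range (N + 1), (1 / 2) ^ (n + 1) * l1 (KK M lab r β n) (KK M lab r β' n) := by
  unfold dd
  apply Finset.sum_subset
  · intro n hn
    rw [Finset.mem_range] at hn ⊢
    exact lt_of_lt_of_le hn (Nat.add_le_add_right (max_le h h') 1)
  · intro n _ hn
    rw [Finset.mem_range, not_lt] at hn
    rw [term_zero β β' (by omega), mul_zero]

theorem dd_nonneg (β β' : List Bool) : 0 ≤ dd M lab r β β' :=
  Finset.sum_nonneg fun n _ => mul_nonneg (by positivity) (l1_nonneg _ _)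

theorem dd_self (β : List Bool) : dd M lab r β β = 0 :=
  Finset.sum_eq_zero fun n _ => by rw [l1_self, mul_zero]

theorem dd_comm (β β' : List Bool) : dd M lab r β β' = dd M lab r β' β := by
  unfold dd
  rw [max_comm]
  exact Finset.sum_congr rfl fun n _ => by rw [l1_comm]

theorem dd_triangle (β β' β'' : List Bool) :
    dd M lab r β β'' ≤ dd M lab r β β' + dd M lab r β' β'' := by
  have h1 : β.length ≤ max β.length (max β'.length β''.length) := le_max_left _ _
  have h2 : β'.length ≤ max β.length (max β'.length β''.length) :=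
    (le_max_left _ _).trans (le_max_right _ _)
  have h3 : β''.length ≤ max β.length (max β'.length β''.length) :=
    (le_max_right _ _).trans (le_max_right _ _)
  rw [dd_eq β β'' h1 h3, dd_eq β β' h1 h2, dd_eq β' β'' h2 h3, ← Finset.sum_add_distrib]
  refine Finset.sum_le_sum fun n _ => ?_
  rw [← mul_add]
  exact mul_le_mul_of_nonneg_left (l1_triangle _ _ _) (by positivity)

private theorem sum_half_le (a b : ℕ) (h : a ≤ b) :
    ∑ n ∈ Finset.Ico a b, ((1 : ℝ) / 2) ^ (n + 1) ≤ (1 / 2) ^ a - (1 / 2) ^ b := by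
  induction b, h using Nat.le_induction with
  | base => simp
  | succ b hab ih =>
    rw [Finset.sum_Ico_succ_top hab]
    have : ((1 : ℝ) / 2) ^ b = (1 / 2) ^ (b + 1) + (1 / 2) ^ (b + 1) := by
      rw [pow_succ]; ring
    linarith

theorem dd_le_two (β β' : List Bool) : dd M lab r β β' ≤ 2 := by
  have h1 : dd M lab r β β' ≤ ∑ n ∈ Finset.range (max β.length β'.length + 1),
      ((1 : ℝ) / 2) ^ (n + 1) * 2 :=
    Finset.sum_le_sum fun n _ => mul_le_mul_of_nonneg_left (l1_le_two _ _) (by positivity)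
  rw [← Finset.sum_mul, Finset.range_eq_Ico] at h1
  have h2 := sum_half_le 0 (max β.length β'.length + 1) (Nat.zero_le _)
  have h3 : (0 : ℝ) ≤ (1 / 2) ^ (max β.length β'.length + 1) := by positivity
  rw [pow_zero] at h2
  linarith

theorem l1_le_dd (β β' : List Bool) (n : ℕ) :
    l1 (KK M lab r β n) (KK M lab r β' n) ≤ 2 ^ (n + 1) * dd M lab r β β' := by
  rcases lt_or_ge (max β.length β'.length) n with h | h
  · rw [term_zero β β' h]
    exact mul_nonneg (by positivity) (dd_nonneg _ _)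
  · have h1 : ((1 : ℝ) / 2) ^ (n + 1) * l1 (KK M lab r β n) (KK M lab r β' n) ≤
        dd M lab r β β' := by
      unfold dd
      exact Finset.single_le_sum
        (f := fun n => ((1 : ℝ) / 2) ^ (n + 1) * l1 (KK M lab r β n) (KK M lab r β' n))
        (fun i _ => mul_nonneg (by positivity) (l1_nonneg _ _))
        (Finset.mem_range.2 (by omega))
    calc l1 (KK M lab r β n) (KK M lab r β' n)
        = 2 ^ (n + 1) * (((1 : ℝ) / 2) ^ (n + 1) * l1 (KK M lab r β n) (KK M lab r β' n)) := by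
          rw [← mul_assoc, ← mul_pow]; norm_num
      _ ≤ 2 ^ (n + 1) * dd M lab r β β' := mul_le_mul_of_nonneg_left h1 (by positivity)

private theorem sum_low (m : ℕ) :
    ∑ n ∈ Finset.range (m + 1), ((1 : ℝ) / 2) ^ (n + 1) * (10 / 16 ^ (m - n)) ≤
      (40 / 7) / 2 ^ m := by
  induction m with
  | zero => norm_num
  | succ m ih =>
    rw [Finset.sum_range_succ, Nat.sub_self, pow_zero]
    have h1 : ∑ n ∈ Finset.range (m + 1), ((1 : ℝ) / 2) ^ (n + 1) * (10 / 16 ^ (m + 1 - n)) =
        (∑ n ∈ Finset.range (m + 1), ((1 : ℝ) / 2) ^ (n + 1) * (10 / 16 ^ (m - n))) / 16 := by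
      rw [Finset.sum_div]
      refine Finset.sum_congr rfl fun n hn => ?_
      rw [Finset.mem_range] at hn
      rw [show m + 1 - n = (m - n) + 1 by omega, pow_succ]
      ring
    rw [h1]
    have h2 : ((1 : ℝ) / 2) ^ (m + 1 + 1) * (10 / 1) = (5 / 2) / 2 ^ m := by
      rw [one_div, inv_pow, pow_succ, pow_succ]
      field_simp
      norm_num
    have h3 : (40 / 7 : ℝ) / 2 ^ (m + 1) = (40 / 7 / 2 ^ m) / 2 := by
      rw [pow_succ]; field_simp
    rw [h2, h3]
    have h4 : (5 / 2 : ℝ) / 2 ^ m = (7 / 16) * (40 / 7 / 2 ^ m) := by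
      field_simp; norm_num
    rw [h4]
    linarith

theorem dd_good (h : Sys (fP r P) M lab) {m s t : ℕ} (hs : SG M lab r P m s)
    (ht : SG M lab r P m t) (hms : m ≤ s) (hmt : m ≤ t) :
    dd M lab r (pre P s) (pre P t) ≤ 8 / 2 ^ m := by
  have hls : (pre P s).length ≤ max s t := by
    rw [pre_length]; exact le_max_left _ _
  have hlt : (pre P t).length ≤ max s t := by
    rw [pre_length]; exact le_max_right _ _
  have hm : m + 1 ≤ max s t + 1 := Nat.add_le_add_right (hms.trans (le_max_left _ _)) 1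
  rw [dd_eq (pre P s) (pre P t) hls hlt, Finset.range_eq_Ico,
    ← Finset.sum_Ico_consecutive _ (Nat.zero_le (m + 1)) hm, ← Finset.range_eq_Ico]
  have h1 : ∑ n ∈ Finset.range (m + 1),
      ((1 : ℝ) / 2) ^ (n + 1) * l1 (KK M lab r (pre P s) n) (KK M lab r (pre P t) n) ≤
      (40 / 7) / 2 ^ m := by
    refine le_trans (Finset.sum_le_sum fun n hn => ?_) (sum_low m)
    rw [Finset.mem_range] at hn
    exact mul_le_mul_of_nonneg_left (KK_KK h hs ht hms hmt (by omega)) (by positivity)
  have h2 : ∑ n ∈ Finset.Ico (m + 1) (max s t + 1),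
      ((1 : ℝ) / 2) ^ (n + 1) * l1 (KK M lab r (pre P s) n) (KK M lab r (pre P t) n) ≤
      (∑ n ∈ Finset.Ico (m + 1) (max s t + 1), ((1 : ℝ) / 2) ^ (n + 1)) * 2 := by
    rw [Finset.sum_mul]
    exact Finset.sum_le_sum fun n _ =>
      mul_le_mul_of_nonneg_left (l1_le_two _ _) (by positivity)
  have h3 := sum_half_le (m + 1) (max s t + 1) hm
  have h4 : (0 : ℝ) ≤ (1 / 2) ^ (max s t + 1) := by positivity
  have h5 : ((1 : ℝ) / 2) ^ (m + 1) * 2 = 1 / 2 ^ m := by
    rw [pow_succ, one_div, inv_pow]; field_simp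
  have h6 : (40 / 7 : ℝ) / 2 ^ m + 1 / 2 ^ m ≤ 8 / 2 ^ m := by
    rw [← add_div]
    exact div_le_div_of_nonneg_right (by norm_num) (by positivity)
  linarith

end Pool.Agent.MCL
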