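import Mathlib
import Pool.Agent.MCL.KIN
import Pool.Agent.MCL.DIN

/-!
Measure classification, module DLA: the integer approximation to the distance.

Sketch. With `β = pre P t`, `β.take s = pre P s`. The `n`-th term of `dl` is the integer part of
`2^(2t-n) * l1 (KK (pre P s) n) (KK (pre P t) n)` (`l1_eq_l1n`, `KK_ne_nil`), and
`2^(2t-n) / 2^(2t+1) = (1/2)^(n+1)` for `n ≤ t`. The error of each of the `t + 1` terms is in
`[0, 1)`, and `(t + 1) / 2^(2t+1) ≤ 1 / 2^t`. Use `dd_eq` with `N = t`.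
-/

set_option autoImplicit false

namespace Pool.Agent.MCL

open MeasureTheory Encodable Pool.Agent.H19 Pool.Agent.AEI Pool.Agent.RJ
open Nat.Partrec (Code)

variable {M : ℕ} {lab : List Bool → Code} {r : Code} {P : ℕ → Bool}

private theorem dla_take {s t : ℕ} (h : s ≤ t) : (pre P t).take s = pre P s := by
  unfold pre
  rw [← List.map_take, List.take_range, min_eq_left h]

private theorem dla_len (t : ℕ) : (pre P t).length = t := by simp [pre]

/-- The `n`-th term. -/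
private noncomputable def trm (M : ℕ) (lab : List Bool → Code) (r : Code) (P : ℕ → Bool)
    (s t n : ℕ) : ℕ :=
  2 ^ (2 * t - n) * l1n (KK M lab r (pre P s) n) (KK M lab r (pre P t) n) /
      ((KK M lab r (pre P s) n).length * (KK M lab r (pre P t) n).length)

private theorem dl_eq_sum {s t : ℕ} (h : s ≤ t) :
    dl M lab r (pre P t) s = ∑ n ∈ Finset.range (t + 1), trm M lab r P s t n := by
  unfold dl
  rw [dla_len, dla_take h, ← List.sum_toFinset _ List.nodup_range, List.toFinset_range]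
  rfl

private theorem trm_bounds (s t n : ℕ) (hn : n ≤ t) :
    (trm M lab r P s t n : ℝ) ≤ 2 ^ (2 * t + 1) *
      ((1 / 2) ^ (n + 1) * l1 (KK M lab r (pre P s) n) (KK M lab r (pre P t) n)) ∧
    2 ^ (2 * t + 1) *
      ((1 / 2) ^ (n + 1) * l1 (KK M lab r (pre P s) n) (KK M lab r (pre P t) n)) ≤
      (trm M lab r P s t n : ℝ) + 1 := by
  have hs : KK M lab r (pre P s) n ≠ [] := KK_ne_nil _ _
  have ht : KK M lab r (pre P t) n ≠ [] := KK_ne_nil _ _
  have hs0 : 0 < (KK M lab r (pre P s) n).length := List.length_pos_of_ne_nil hs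
  have ht0 : 0 < (KK M lab r (pre P t) n).length := List.length_pos_of_ne_nil ht
  rw [l1_eq_l1n hs ht]
  unfold trm
  set a := l1n (KK M lab r (pre P s) n) (KK M lab r (pre P t) n) with ha
  set b := (KK M lab r (pre P s) n).length with hb
  set c := (KK M lab r (pre P t) n).length with hc
  have hbc : (0 : ℝ) < (b : ℝ) * c := by positivity
  have e1 : (2 : ℝ) ^ (2 * t + 1) * ((1 / 2) ^ (n + 1) * ((a : ℝ) / (b * c))) =
      ((2 ^ (2 * t - n) * a : ℕ) : ℝ) / ((b * c : ℕ) : ℝ) := by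
    have e2 : (2 : ℝ) ^ (2 * t + 1) = 2 ^ (2 * t - n) * 2 ^ (n + 1) := by
      rw [← pow_add]; congr 1; omega
    rw [e2]
    push_cast
    have e3 : (2 : ℝ) ^ (n + 1) * (1 / 2) ^ (n + 1) = 1 := by
      rw [← mul_pow]; norm_num
    calc (2 : ℝ) ^ (2 * t - n) * 2 ^ (n + 1) * ((1 / 2) ^ (n + 1) * ((a : ℝ) / (b * c)))
        = 2 ^ (2 * t - n) * (2 ^ (n + 1) * (1 / 2) ^ (n + 1)) * ((a : ℝ) / (b * c)) := by ring
      _ = _ := by rw [e3, mul_one, mul_div_assoc]
  rw [e1]
  have hbcn : 0 < b * c := Nat.mul_pos hs0 ht0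
  have hbcr : (0 : ℝ) < ((b * c : ℕ) : ℝ) := by exact_mod_cast hbcn
  constructor
  · exact Nat.cast_div_le
  · rw [div_le_iff₀ hbcr]
    have h1 := (Nat.lt_div_mul_add (a := 2 ^ (2 * t - n) * a) hbcn).le
    have h2 : ((2 ^ (2 * t - n) * a : ℕ) : ℝ) ≤
        ((2 ^ (2 * t - n) * a / (b * c) * (b * c) + b * c : ℕ) : ℝ) := by exact_mod_cast h1
    refine h2.trans (le_of_eq ?_)
    push_cast
    ring

private theorem dd_eq' (s t : ℕ) (h : s ≤ t) : (2 : ℝ) ^ (2 * t + 1) *
    dd M lab r (pre P s) (pre P t) = ∑ n ∈ Finset.range (t + 1), 2 ^ (2 * t + 1) *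
      ((1 / 2) ^ (n + 1) * l1 (KK M lab r (pre P s) n) (KK M lab r (pre P t) n)) := by
  rw [dd_eq (pre P s) (pre P t) (N := t) (by rw [dla_len]; exact h) (by rw [dla_len]),
    Finset.mul_sum]

theorem dl_le {s t : ℕ} (h : s ≤ t) :
    (dl M lab r (pre P t) s : ℝ) / 2 ^ (2 * t + 1) ≤ dd M lab r (pre P s) (pre P t) := by
  rw [div_le_iff₀ (by positivity), mul_comm, dd_eq' s t h, dl_eq_sum h]
  push_cast
  exact Finset.sum_le_sum fun n hn => (trm_bounds s t n (by
    have := Finset.mem_range.1 hn; omega)).1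

theorem le_dl {s t : ℕ} (h : s ≤ t) : dd M lab r (pre P s) (pre P t) ≤
    (dl M lab r (pre P t) s : ℝ) / 2 ^ (2 * t + 1) + 1 / 2 ^ t := by
  have h1 : (2 : ℝ) ^ (2 * t + 1) * dd M lab r (pre P s) (pre P t) ≤
      (dl M lab r (pre P t) s : ℝ) + (t + 1) := by
    rw [dd_eq' s t h, dl_eq_sum h]
    push_cast
    calc _ ≤ ∑ n ∈ Finset.range (t + 1), ((trm M lab r P s t n : ℝ) + 1) :=
          Finset.sum_le_sum fun n hn => (trm_bounds s t n (by
            have := Finset.mem_range.1 hn; omega)).2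
      _ = _ := by rw [Finset.sum_add_distrib]; simp
  have h2 : ((t : ℝ) + 1) ≤ 2 ^ (t + 1) := by
    have h3 : t + 1 < 2 ^ (t + 1) := Nat.lt_two_pow_self
    exact_mod_cast h3.le
  have h4 : (0 : ℝ) < 2 ^ (2 * t + 1) := by positivity
  have h5 : dd M lab r (pre P s) (pre P t) ≤
      ((dl M lab r (pre P t) s : ℝ) + (t + 1)) / 2 ^ (2 * t + 1) := by
    rw [le_div_iff₀ h4, mul_comm]; exact h1
  refine h5.trans ?_
  rw [add_div]
  refine add_le_add le_rfl ?_
  rw [div_le_div_iff₀ h4 (by positivity), one_mul]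
  calc ((t : ℝ) + 1) * 2 ^ t ≤ 2 ^ (t + 1) * 2 ^ t := by gcongr
    _ = 2 ^ (2 * t + 1) := by rw [← pow_add]; congr 1; omega

end Pool.Agent.MCL
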