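import Mathlib
import Pool.Agent.RJ.OPR
import Pool.Agent.H19.Switch

/-!
Measure classification: definitions. `M` and `lab` give the votes: the vote of a string `τ` (an
initial segment of `FF f y`) at `x` is `out M lab (x|N) τ`. `r` is the operator, `β` an initial
segment of the parameter `P`.
-/

set_option autoImplicit false

namespace Pool.Agent.MCL

open MeasureTheory Encodable Pool.Agent.H19 Pool.Agent.AEI Pool.Agent.RJ
open Nat.Partrec (Code)

/-! ### Votes and labels -/

/-- The sequence `y` together with `f y`. -/
def FF (f : (ℕ → Bool) → (ℕ → Bool)) (y : ℕ → Bool) : ℕ → Bool := jn y (f y)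

/-- The vote of `τ` at the sequences extending `α`. -/
def out (M : ℕ) (lab : List Bool → Code) (α τ : List Bool) : List Bool :=
  if M ≤ 2 * (τ.length / 2) then
    (zf (lab ((jns (evs τ) (α.take (τ.length / 2))).take M)) (jns α τ)).take τ.length
  else []

/-- The pairs `(y, x)` where the vote of `y` at `x` is right. -/
def SS (f : (ℕ → Bool) → (ℕ → Bool)) (M : ℕ) (lab : List Bool → Code) :
    Set ((ℕ → Bool) × (ℕ → Bool)) :=
  {p | CodeComputes (lab (pre (jn p.1 p.2) M)) (jn p.2 (FF f p.1)) (FF f p.2)}

/-- The votes are right for almost all pairs. -/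
structure Sys (f : (ℕ → Bool) → (ℕ → Bool)) (M : ℕ) (lab : List Bool → Code) : Prop where
  meas : Measurable f
  comp : Computable lab
  small : (coin.prod coin).real (SS f M lab)ᶜ ≤ 1 / 2 ^ 26

/-- The string `ρ` reaches level `n`. -/
def rch (M : ℕ) (lab : List Bool → Code) : ℕ → List Bool → Bool
  | 0, _ => true
  | n + 1, ρ => decide (n + 1 ≤ ρ.length) && decide (2047 * 2 ^ ρ.length ≤
      2048 * ((strs ρ.length).filter fun α => rch M lab n (out M lab α ρ)).length)

/-- The shortest initial segment of `σ` which reaches level `n`. -/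
def cut (M : ℕ) (lab : List Bool → Code) (n : ℕ) (σ : List Bool) : Option (List Bool) :=
  (((List.range (σ.length + 1)).filter fun k => rch M lab n (σ.take k)).head?).map
    fun k => σ.take k

/-- The string `ρ` reaches level `n`, and no shorter initial segment of it does. -/
def rmin (M : ℕ) (lab : List Bool → Code) (n : ℕ) (ρ : List Bool) : Prop :=
  rch M lab n ρ = true ∧ ∀ k < ρ.length, rch M lab n (ρ.take k) = false

/-- The string `ρ` is the label of level `n` of `y`. -/
def Lab (f : (ℕ → Bool) → (ℕ → Bool)) (M : ℕ) (lab : List Bool → Code) (n : ℕ) (y : ℕ → Bool)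
    (ρ : List Bool) : Prop := IsPre ρ (FF f y) ∧ rmin M lab n ρ

/-- The `y` whose votes are mostly right. -/
def S1 (f : (ℕ → Bool) → (ℕ → Bool)) (M : ℕ) (lab : List Bool → Code) : Set (ℕ → Bool) :=
  {y | coin.real {x | (y, x) ∉ SS f M lab} ≤ 1 / 2 ^ 13}

/-- The `x` at which most votes are right. -/
def S2 (f : (ℕ → Bool) → (ℕ → Bool)) (M : ℕ) (lab : List Bool → Code) : Set (ℕ → Bool) :=
  {x | coin.real {y | (y, x) ∉ SS f M lab} ≤ 1 / 2 ^ 13}

/-- The `y` which do not vote for the label of level `n` of `x`. -/
def bad (f : (ℕ → Bool) → (ℕ → Bool)) (M : ℕ) (lab : List Bool → Code) (n : ℕ)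
    (x : ℕ → Bool) : Set (ℕ → Bool) :=
  {y | ¬ (y ∈ S1 f M lab ∧ (y, x) ∈ SS f M lab ∧ ∃ ρ, Lab f M lab (n + 1) y ρ ∧
    rch M lab n (out M lab (pre x ρ.length) ρ) = true)}

/-- The sequences which are good at level `n`. -/
def Good (f : (ℕ → Bool) → (ℕ → Bool)) (M : ℕ) (lab : List Bool → Code) (n : ℕ) :
    Set (ℕ → Bool) :=
  {x | x ∈ S1 f M lab ∧ x ∈ S2 f M lab ∧ coin.real (bad f M lab n x) ≤ 1 / 8}

/-! ### Vectors -/

/-- A finite list of optional strings, with equal weights. -/
abbrev Vec := List (Option (List Bool))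

/-- The weight of a string. -/
noncomputable def wt (v : Vec) (ρ : List Bool) : ℝ := (v.count (some ρ) : ℝ) / v.length

open Classical in
/-- The weight of a set of strings. -/
noncomputable def fr (v : Vec) (B : Set (List Bool)) : ℝ :=
  ((v.filter fun o => decide (∃ ρ ∈ B, o = some ρ)).length : ℝ) / v.length

/-- The greatest length of a string in `v`. -/
def ml (v : Vec) : ℕ := v.foldl (fun a o => max a (o.getD []).length) 0

/-- The distance of two vectors. -/
noncomputable def l1 (v v' : Vec) : ℝ :=
  ∑ ρ ∈ (strsLe (max (ml v) (ml v'))).toFinset, |wt v ρ - wt v' ρ|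

/-- The distance of two vectors, times the product of the lengths. -/
def l1n (v v' : Vec) : ℕ :=
  ((strsLe (max (ml v) (ml v'))).map fun ρ =>
    (v.count (some ρ) * v'.length - v'.count (some ρ) * v.length) +
    (v'.count (some ρ) * v.length - v.count (some ρ) * v'.length)).sum

/-- The votes of level `n` at the sequences extending `α`. -/
def vt (M : ℕ) (lab : List Bool → Code) (n : ℕ) (α : List Bool) (v : Vec) : Vec :=
  v.map fun o => o.bind fun τ => cut M lab n (out M lab α τ)

/-- The string in `l` with more than half of the votes. -/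
def maj (l : Vec) : Option (List Bool) :=
  ((l.filter fun o => o.isSome && decide (l.length < 2 * l.count o)).head?).getD none

/-- The soft majority vote: the string with the majority is repeated `4 c - 2 |l|` times, at most
`|l|` times, where `c` is the number of its votes. -/
def soft (l : Vec) : Vec :=
  List.replicate (min l.length (4 * l.count (maj l) - 2 * l.length)) (maj l) ++
    List.replicate (l.length - min l.length (4 * l.count (maj l) - 2 * l.length)) none

/-- The step from level `n + 1` to level `n`. -/
def tv (M : ℕ) (lab : List Bool → Code) (n : ℕ) (v : Vec) : Vec :=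
  (strs (ml v)).flatMap fun α => soft (vt M lab n α v)

/-- The function used for the soft votes. -/
noncomputable def cl (t : ℝ) : ℝ := min 1 (max 0 (4 * t - 2))

/-- The vector `v` is acceptable at level `n`. -/
def Acc (f : (ℕ → Bool) → (ℕ → Bool)) (M : ℕ) (lab : List Bool → Code) (n : ℕ) (v : Vec) : Prop :=
  ∃ Q : Set (ℕ → Bool), MeasurableSet Q ∧ 7 / 8 ≤ coin.real Q ∧
    ∀ B : Set (List Bool), coin.real {y | y ∈ Q ∧ ∃ ρ ∈ B, Lab f M lab n y ρ} ≤ fr v B

/-- The vector `v` is acceptable at level `n`, with the set of the good sequences. -/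
def SAcc (f : (ℕ → Bool) → (ℕ → Bool)) (M : ℕ) (lab : List Bool → Code) (n : ℕ) (v : Vec) : Prop :=
  ∀ B : Set (List Bool), coin.real {y | y ∈ Good f M lab n ∧ ∃ ρ ∈ B, Lab f M lab n y ρ} ≤ fr v B

/-- The vector `v` of level `m`, `k` levels further down. -/
def dn (M : ℕ) (lab : List Bool → Code) (m : ℕ) (v : Vec) : ℕ → Vec
  | 0 => v
  | k + 1 => tv M lab (m - k - 1) (dn M lab m v k)

/-! ### Stages -/

/-- The number `n` is enumerated by `r` from the oracle string `σ`, in `|σ|` steps. -/
def wst (r : Code) (σ : List Bool) (n : ℕ) : Bool :=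
  (List.range (σ.length + 1)).any fun k => (Code.evaln σ.length r (encode (n, σ.take k))).isSome

/-- The approximation to `y ⊕ W_r^(P ⊕ y)` given by initial segments `β` of `P` and `α` of `y`. -/
def Fst (r : Code) (β α : List Bool) : List Bool :=
  jns α ((List.range α.length).map (wst r (jns β α)))

/-- The function `y ↦ W_r^(P ⊕ y)`. -/
noncomputable def fP (r : Code) (P : ℕ → Bool) : (ℕ → Bool) → (ℕ → Bool) := fun y => op r (jn P y)

/-- The vector of the labels of level `m` at the stage given by `β`. -/
def v0 (M : ℕ) (lab : List Bool → Code) (r : Code) (m : ℕ) (β : List Bool) : Vec :=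
  (strs β.length).map fun α => cut M lab m (Fst r β α)

/-- The vector of level `n` obtained from `v0 m β`. -/
def ul (M : ℕ) (lab : List Bool → Code) (r : Code) (β : List Bool) (m n : ℕ) : Vec :=
  dn M lab m (v0 M lab r m β) (m - n)

/-- The level `m` agrees with the lower levels. -/
def cons (M : ℕ) (lab : List Bool → Code) (r : Code) (β : List Bool) (m : ℕ) : Bool :=
  (List.range m).all fun m' => (List.range (m' + 1)).all fun n =>
    decide (l1n (ul M lab r β m n) (ul M lab r β m' n) * 16 ^ (m' - n) ≤
      4 * ((ul M lab r β m n).length * (ul M lab r β m' n).length))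

/-- The greatest level used at the stage given by `β`. -/
def mm (M : ℕ) (lab : List Bool → Code) (r : Code) (β : List Bool) : ℕ :=
  mx (cons M lab r β) β.length

/-- The vector of level `n` at the stage given by `β`. -/
def KK (M : ℕ) (lab : List Bool → Code) (r : Code) (β : List Bool) (n : ℕ) : Vec :=
  if n ≤ mm M lab r β then ul M lab r β (mm M lab r β) n else [none]

/-- The set where the stage `s` knows the label of level `m`. -/
def Qs (M : ℕ) (lab : List Bool → Code) (r : Code) (P : ℕ → Bool) (m s : ℕ) : Set (ℕ → Bool) :=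
  {y | ∃ ρ, Lab (fP r P) M lab m y ρ ∧ ρ <+: Fst r (pre P s) (pre y s)}

/-- The stage `s` is `m`-good. -/
def SG (M : ℕ) (lab : List Bool → Code) (r : Code) (P : ℕ → Bool) (m s : ℕ) : Prop :=
  7 / 8 ≤ coin.real (Qs M lab r P m s)

/-! ### The real number -/

/-- The distance of two stages. -/
noncomputable def dd (M : ℕ) (lab : List Bool → Code) (r : Code) (β β' : List Bool) : ℝ :=
  ∑ n ∈ Finset.range (max β.length β'.length + 1),
    (1 / 2) ^ (n + 1) * l1 (KK M lab r β n) (KK M lab r β' n)

/-- The distance of the stages `s` and `|β|`, times `2 ^ (2 |β| + 1)`, rounded down. -/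
def dl (M : ℕ) (lab : List Bool → Code) (r : Code) (β : List Bool) (s : ℕ) : ℕ :=
  ((List.range (β.length + 1)).map fun n =>
    2 ^ (2 * β.length - n) * l1n (KK M lab r (β.take s) n) (KK M lab r β n) /
      ((KK M lab r (β.take s) n).length * (KK M lab r β n).length)).sum

/-- The greatest distance of the stage `s` and the stages from `s` to `|β|`, times
`2 ^ (2 |β| + 1)`. -/
def md (M : ℕ) (lab : List Bool → Code) (r : Code) (β : List Bool) (s : ℕ) : ℕ :=
  (List.range (β.length + 1)).foldl (fun a t =>
    if decide (s ≤ t) then max a (dl M lab r (β.take t) s * 4 ^ (β.length - t)) else a) 0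

/-- The approximation to the real number at the stage `|β|`, times `2 ^ (3 |β| + 2)`. -/
def GG (M : ℕ) (lab : List Bool → Code) (r : Code) (β : List Bool) : ℕ :=
  ((List.range (β.length + 1)).map fun s => 2 ^ (β.length - s) * md M lab r β s).sum

open Classical in
/-- The cut of the real number: `q = (p, k)` with `p / 2 ^ k < Γ`. -/
noncomputable def Aq (M : ℕ) (lab : List Bool → Code) (r : Code) (P : ℕ → Bool) : ℕ → Bool :=
  fun q => decide (∃ t, q.unpair.1 * 2 ^ (3 * t + 2) < GG M lab r (pre P t) * 2 ^ q.unpair.2)

/-- The distance of the stages `s` and `t`, maximised over the stages from `s` to `t`. -/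
noncomputable def Dst (M : ℕ) (lab : List Bool → Code) (r : Code) (P : ℕ → Bool) (s t : ℕ) : ℝ :=
  (md M lab r (pre P t) s : ℝ) / 2 ^ (2 * t + 1)

/-- The approximation to the real number at the stage `t`. -/
noncomputable def Gt (M : ℕ) (lab : List Bool → Code) (r : Code) (P : ℕ → Bool) (t : ℕ) : ℝ :=
  (GG M lab r (pre P t) : ℝ) / 2 ^ (3 * t + 2)

/-! ### Tests -/

/-- The test for a good stage: most strings `α` get a label of level `m` from the oracle string `τ`
which is seen at the stage given by `β`. -/
def tA (M : ℕ) (lab : List Bool → Code) (r : Code) (m : ℕ) (β τ : List Bool) : Bool :=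
  decide (m ≤ β.length) && (decide (β.length ≤ τ.length) && decide (15 * 2 ^ τ.length ≤ 16 *
    ((strs τ.length).filter fun α => ((cut M lab m (out M lab α τ)).map fun ρ =>
      isPre ρ (Fst r β (α.take β.length))).getD false).length))

/-- The test in the search for a bit of `f z`: the stage `s` is close to all later stages (if
`p / 2 ^ k` is an upper bound of the real number), and `ρ` has more than half of the votes. -/
def tB (M : ℕ) (lab : List Bool → Code) (r : Code) (i n s p k : ℕ) (β ζ ρ : List Bool) : Bool :=
  decide (s ≤ β.length) && (decide (md M lab r β s * 2 ^ (β.length + k + n + 10) +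
      2 ^ (s + n + 10) * (p * 2 ^ (3 * β.length + 2)) ≤
      2 ^ (3 * β.length + 2 + k) + 2 ^ (s + n + 10) * (GG M lab r β * 2 ^ k)) &&
    (decide (ml (KK M lab r (β.take s) (n + 1)) ≤ ζ.length) && (decide (2 * i + 1 < ρ.length) &&
      decide ((vt M lab n ζ (KK M lab r (β.take s) (n + 1))).length <
        2 * (vt M lab n ζ (KK M lab r (β.take s) (n + 1))).count (some ρ)))))

end Pool.Agent.MCL
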