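import Mathlib
import Pool.Agent.MCL.OUT

/-!
Measure classification, module FSM: the approximations to `FF (fP r P) y`.

Sketch. `wst r σ n`: some `k ≤ |σ|` has `(evaln |σ| r (encode (n, σ.take k))).isSome`: monotone in
`σ` (`Code.evaln_mono`), and `∃ s, wst r (pre X s) n` iff `n ∈ opSet r X` (`op_iff`,
`Code.evaln_complete`). `Fst_pre`: `jns_pre`. `Fst_persist`: compare the entries (`jns` has entries
`α[i/2]` at even `i` and the bits `wst` at odd `i`): at an odd place, if the true bit of
`W_r^(P ⊕ y)` is `true`, `wst` is true at stage `s`, hence at `t`; if it is `false`, `wst` is never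
true. `exists_Fst`: `ρ` has finitely many places.
-/

set_option autoImplicit false

namespace Pool.Agent.MCL

open MeasureTheory Encodable Pool.Agent.H19 Pool.Agent.AEI Pool.Agent.RJ
open Nat.Partrec (Code)

variable {r : Code} {P : ℕ → Bool}

theorem wst_mono {σ σ' : List Bool} (h : σ <+: σ') {n : ℕ} (hw : wst r σ n = true) :
    wst r σ' n = true := by
  rw [wst, List.any_eq_true] at hw ⊢
  obtain ⟨k, hk, hk'⟩ := hw
  rw [List.mem_range] at hk
  have hl := h.length_le
  refine ⟨k, List.mem_range.2 (by omega), ?_⟩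
  have ht : σ'.take k = σ.take k := by
    obtain ⟨τ, rfl⟩ := h
    rw [List.take_append_of_le_length (by omega)]
  rw [ht]
  obtain ⟨x, hx⟩ := Option.isSome_iff_exists.1 hk'
  exact Option.isSome_iff_exists.2 ⟨x, Code.evaln_mono hl hx⟩

theorem op_iff_wst {X : ℕ → Bool} {n : ℕ} :
    op r X n = true ↔ ∃ s, wst r (pre X s) n = true := by
  have h0 : op r X n = true ↔ ∃ s, (r.eval (encode (n, pre X s))).Dom := op_iff
  rw [h0]
  constructor
  · rintro ⟨s, hs⟩
    obtain ⟨x, hx⟩ := Part.dom_iff_mem.1 hs
    obtain ⟨k, hk⟩ := Code.evaln_complete.1 hx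
    refine ⟨max s k, ?_⟩
    rw [wst, List.any_eq_true, pre_length]
    refine ⟨s, List.mem_range.2 (by omega), ?_⟩
    rw [pre_take X (le_max_left s k)]
    exact Option.isSome_iff_exists.2 ⟨x, Code.evaln_mono (le_max_right s k) hk⟩
  · rintro ⟨s, hs⟩
    rw [wst, List.any_eq_true, pre_length] at hs
    obtain ⟨k, hk, hk'⟩ := hs
    rw [List.mem_range] at hk
    rw [pre_take X (by omega : k ≤ s)] at hk'
    obtain ⟨x, hx⟩ := Option.isSome_iff_exists.1 hk'
    exact ⟨k, Part.dom_iff_mem.2 ⟨x, Code.evaln_sound hx⟩⟩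

theorem Fst_length (β α : List Bool) : (Fst r β α).length = 2 * α.length := by
  simp [Fst, jns]

theorem Fst_pre (y : ℕ → Bool) (s : ℕ) : Fst r (pre P s) (pre y s) =
    jns (pre y s) ((List.range s).map (wst r (pre (jn P y) (2 * s)))) := by
  rw [Fst, pre_length, jns_pre]

private theorem Fst_get (y : ℕ → Bool) {s i : ℕ} (hi : i < 2 * s) :
    (Fst r (pre P s) (pre y s))[i]? =
      some (if i % 2 = 0 then y (i / 2) else wst r (pre (jn P y) (2 * s)) (i / 2)) := by
  rw [Fst_pre, jns, List.getElem?_map, List.getElem?_range (by simpa using hi), Option.map_some]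
  have h1 : i / 2 < s := by omega
  by_cases h : i % 2 = 0
  · simp only [h, decide_true, if_true]
    rw [pre_getD y h1 false]
  · simp only [h, decide_false, if_false, Bool.false_eq_true]
    rw [List.getD_eq_getElem?_getD, List.getElem?_map, List.getElem?_range h1]
    rfl

private theorem FF_eq (y : ℕ → Bool) (i : ℕ) : FF (fP r P) y i =
    if i % 2 = 0 then y (i / 2) else op r (jn P y) (i / 2) := rfl

private theorem get_of_isPre {ρ : List Bool} {Z : ℕ → Bool} (h : IsPre ρ Z) {i : ℕ}
    (hi : i < ρ.length) : ρ[i]? = some (Z i) := by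
  conv_lhs => rw [h]
  exact pre_getElem? Z hi

theorem Fst_persist {y : ℕ → Bool} {ρ : List Bool} (hρ : IsPre ρ (FF (fP r P) y)) {s t : ℕ}
    (hst : s ≤ t) (h : ρ <+: Fst r (pre P s) (pre y s)) :
    ρ <+: Fst r (pre P t) (pre y t) := by
  have hl : ρ.length ≤ 2 * s := by
    have := h.length_le
    rwa [Fst_length, pre_length] at this
  rw [List.prefix_iff_getElem?] at h ⊢
  intro i hi
  have h1 := h i hi
  have h2 := get_of_isPre hρ hi
  rw [List.getElem?_eq_getElem hi] at h2
  rw [Fst_get y (by omega : i < 2 * t)]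
  rw [Fst_get y (by omega : i < 2 * s)] at h1
  rw [← h1]
  congr 1
  by_cases he : i % 2 = 0
  · simp only [he, if_true]
  · simp only [he, if_false] at h1 ⊢
    have h3 : FF (fP r P) y i = op r (jn P y) (i / 2) := by
      rw [FF_eq, if_neg he]
    rw [h3] at h2
    have h4 : wst r (pre (jn P y) (2 * s)) (i / 2) = op r (jn P y) (i / 2) := by
      rw [Option.some.injEq] at h1 h2
      rw [h1, h2]
    cases ho : op r (jn P y) (i / 2) with
    | true =>
      rw [ho] at h4
      rw [h4]
      exact wst_mono (pre_mono _ (by omega)) h4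
    | false =>
      rw [ho] at h4
      rw [h4]
      by_contra hc
      have h5 : wst r (pre (jn P y) (2 * t)) (i / 2) = true := by
        simpa using hc
      have := op_iff_wst.2 ⟨_, h5⟩
      rw [ho] at this
      exact Bool.false_ne_true this

theorem exists_Fst {y : ℕ → Bool} {ρ : List Bool} (hρ : IsPre ρ (FF (fP r P) y)) :
    ∃ s0, ∀ s ≥ s0, ρ <+: Fst r (pre P s) (pre y s) := by
  have key : ∀ i, ∃ s0, ∀ s ≥ s0,
      (Fst r (pre P s) (pre y s))[i]? = some (FF (fP r P) y i) := by
    intro i
    by_cases he : i % 2 = 0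
    · refine ⟨i + 1, fun s hs => ?_⟩
      rw [Fst_get y (by omega), FF_eq, if_pos he, if_pos he]
    · cases ho : op r (jn P y) (i / 2) with
      | true =>
        obtain ⟨s1, hs1⟩ := op_iff_wst.1 ho
        refine ⟨max (i + 1) s1, fun s hs => ?_⟩
        have h1 : i + 1 ≤ s := (le_max_left _ _).trans hs
        have h2 : s1 ≤ s := (le_max_right _ _).trans hs
        rw [Fst_get y (by omega), FF_eq, if_neg he, if_neg he, ho]
        congr 1
        exact wst_mono (pre_mono _ (by omega)) hs1
      | false =>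
        refine ⟨i + 1, fun s hs => ?_⟩
        rw [Fst_get y (by omega), FF_eq, if_neg he, if_neg he, ho]
        congr 1
        by_contra hc
        have h5 : wst r (pre (jn P y) (2 * s)) (i / 2) = true := by
          simpa using hc
        have := op_iff_wst.2 ⟨_, h5⟩
        rw [ho] at this
        exact Bool.false_ne_true this
  choose g hg using key
  refine ⟨(Finset.range ρ.length).sup g, fun s hs => ?_⟩
  rw [List.prefix_iff_getElem?]
  intro i hi
  have h1 : g i ≤ s := (Finset.le_sup (f := g) (Finset.mem_range.2 hi)).trans hs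
  rw [hg i s h1]
  have h2 := get_of_isPre hρ hi
  rw [List.getElem?_eq_getElem hi] at h2
  exact h2.symm

end Pool.Agent.MCL
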