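import Mathlib
import Pool.Agent.MCL.CTM

/-!
Measure classification, module MSB: measurability.

Sketch. `FF f y = jn y (f y)`: `measurable_jn`. `SS`: finitely many strings `σ` of length `M`
(`pre (jn p.1 p.2) M = σ`: `meas_pre_pred`), and for each of them `meas_computes`. `Lab n y ρ`:
`IsPre ρ (FF f y)` (`meas_isPre`) and a condition without `y`. Unions over strings are countable.
`S1`, `S2`: `measurable_measure_prodMk_left` (`coin.real` of a fibre). `bad`: the section condition
`rch n (out (pre x |ρ|) ρ)` is a condition on `pre x |ρ|`.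
-/

set_option autoImplicit false

namespace Pool.Agent.MCL

open MeasureTheory Encodable Pool.Agent.H19 Pool.Agent.AEI Pool.Agent.RJ
open Nat.Partrec (Code)

variable {f : (ℕ → Bool) → (ℕ → Bool)} {M : ℕ} {lab : List Bool → Code}

theorem measurable_FF (hf : Measurable f) : Measurable (FF f) :=
  measurable_jn.comp (measurable_id.prodMk hf)

theorem measurableSet_SS (hf : Measurable f) : MeasurableSet (SS f M lab) := by
  have hF : Measurable (FF f) := measurable_FF hf
  have h1 : Measurable fun p : (ℕ → Bool) × (ℕ → Bool) => jn p.2 (FF f p.1) :=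
    measurable_jn.comp (measurable_snd.prodMk (hF.comp measurable_fst))
  have h2 : Measurable fun p : (ℕ → Bool) × (ℕ → Bool) => FF f p.2 := hF.comp measurable_snd
  have e : SS f M lab = ⋃ σ : List Bool,
      ({p | pre (jn p.1 p.2) M = σ} ∩ {p | CodeComputes (lab σ) (jn p.2 (FF f p.1)) (FF f p.2)}) := by
    ext p
    simp only [SS, Set.mem_ofPred_eq, Set.mem_iUnion, Set.mem_inter_iff]
    constructor
    · intro h
      exact ⟨_, rfl, h⟩
    · rintro ⟨σ, rfl, h⟩
      exact h
  rw [e]
  exact MeasurableSet.iUnion fun σ =>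
    (meas_pre_pred measurable_jn M fun τ => τ = σ).inter (meas_computes h1 h2 (lab σ))

theorem measurableSet_Lab (hf : Measurable f) (n : ℕ) (ρ : List Bool) :
    MeasurableSet {y | Lab f M lab n y ρ} := by
  by_cases h : rmin M lab n ρ
  · have e : {y | Lab f M lab n y ρ} = {y | IsPre ρ (FF f y)} := by
      ext y
      simp only [Lab, Set.mem_ofPred_eq]
      exact ⟨fun h2 => h2.1, fun h2 => ⟨h2, h⟩⟩
    rw [e]
    exact meas_isPre (measurable_FF hf) ρ
  · have e : {y | Lab f M lab n y ρ} = ∅ := by
      ext y
      simp only [Lab, Set.mem_ofPred_eq, Set.mem_empty_iff_false, iff_false]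
      exact fun h2 => h h2.2
    rw [e]
    exact MeasurableSet.empty

theorem measurableSet_labB (hf : Measurable f) (n : ℕ) (B : Set (List Bool)) :
    MeasurableSet {y | ∃ ρ ∈ B, Lab f M lab n y ρ} := by
  have e : {y | ∃ ρ ∈ B, Lab f M lab n y ρ} = ⋃ ρ ∈ B, {y | Lab f M lab n y ρ} := by
    ext y
    simp only [Set.mem_ofPred_eq, Set.mem_iUnion, exists_prop]
  rw [e]
  exact MeasurableSet.biUnion B.to_countable fun ρ _ => measurableSet_Lab hf n ρ

theorem measurable_section {T : Set ((ℕ → Bool) × (ℕ → Bool))} (hT : MeasurableSet T) :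
    Measurable fun y : ℕ → Bool => coin.real {x | (y, x) ∈ T} :=
  (measurable_measure_prodMk_left hT).ennreal_toReal

theorem measurable_section_right {T : Set ((ℕ → Bool) × (ℕ → Bool))} (hT : MeasurableSet T) :
    Measurable fun x : ℕ → Bool => coin.real {y | (y, x) ∈ T} :=
  (measurable_measure_prodMk_right hT).ennreal_toReal

theorem measurableSet_S1 (hf : Measurable f) : MeasurableSet (S1 f M lab) :=
  measurableSet_le (measurable_section (measurableSet_SS hf).compl) measurable_const

theorem measurableSet_S2 (hf : Measurable f) : MeasurableSet (S2 f M lab) :=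
  measurableSet_le (measurable_section_right (measurableSet_SS hf).compl) measurable_const

theorem measurableSet_badset (hf : Measurable f) (n : ℕ) :
    MeasurableSet {p : (ℕ → Bool) × (ℕ → Bool) | p.1 ∈ bad f M lab n p.2} := by
  have e : {p : (ℕ → Bool) × (ℕ → Bool) | p.1 ∈ bad f M lab n p.2} =
      ({p | p.1 ∈ S1 f M lab} ∩ (SS f M lab ∩ ⋃ ρ : List Bool,
        ({p | Lab f M lab (n + 1) p.1 ρ} ∩
          {p | rch M lab n (out M lab (pre p.2 ρ.length) ρ) = true})))ᶜ := by
    ext p
    simp only [bad, Set.mem_ofPred_eq, Set.mem_compl_iff, Set.mem_inter_iff, Set.mem_iUnion,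
      Prod.mk.eta]
  rw [e]
  refine ((measurable_fst (measurableSet_S1 hf)).inter ((measurableSet_SS hf).inter
    (MeasurableSet.iUnion fun ρ => ?_))).compl
  refine (measurable_fst (measurableSet_Lab hf (n + 1) ρ)).inter ?_
  exact meas_pre_pred measurable_snd ρ.length fun α => rch M lab n (out M lab α ρ) = true

theorem measurableSet_bad (hf : Measurable f) (n : ℕ) (x : ℕ → Bool) :
    MeasurableSet (bad f M lab n x) :=
  (measurable_id.prodMk measurable_const) (measurableSet_badset hf n)

theorem measurableSet_Good (hf : Measurable f) (n : ℕ) : MeasurableSet (Good f M lab n) := by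
  have h : MeasurableSet {x : ℕ → Bool | coin.real (bad f M lab n x) ≤ 1 / 8} :=
    measurableSet_le (measurable_section_right (measurableSet_badset hf n)) measurable_const
  exact (measurableSet_S1 hf).inter ((measurableSet_S2 hf).inter h)

end Pool.Agent.MCL
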