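import Mathlib
import Pool.Agent.MCL.MSB

/-!
Measure classification, module FUB: Fubini and Markov.

Sketch. `(coin.prod coin) T = ∫ y, coin {x | (y, x) ∈ T}` (`Measure.prod_apply`), and Markov's
inequality. `S1ᶜ = {y | 1/2^13 < coin.real {x | (y, x) ∉ SS}}`.
-/

set_option autoImplicit false

namespace Pool.Agent.MCL

open MeasureTheory Encodable Pool.Agent.H19 Pool.Agent.AEI Pool.Agent.RJ
open Nat.Partrec (Code)

variable {f : (ℕ → Bool) → (ℕ → Bool)} {M : ℕ} {lab : List Bool → Code}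

/-- Markov's inequality for a function with values in `ENNReal`. -/
theorem FUB_markov {g : (ℕ → Bool) → ENNReal} (hg : Measurable g) (hfin : ∀ y, g y ≠ ⊤) {I ε : ℝ}
    (hε : 0 < ε) (hI0 : 0 ≤ I) (hI : ∫⁻ y, g y ∂coin ≤ ENNReal.ofReal I) :
    coin.real {y | ε < (g y).toReal} ≤ I / ε := by
  have h1 : coin {y | ENNReal.ofReal ε ≤ g y} ≤ ENNReal.ofReal I / ENNReal.ofReal ε := by
    refine le_trans (meas_ge_le_lintegral_div hg.aemeasurable ?_ ENNReal.ofReal_ne_top) ?_
    · simpa using hε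
    · exact ENNReal.div_le_div_right hI _
  have h2 : {y | ε < (g y).toReal} ⊆ {y | ENNReal.ofReal ε ≤ g y} := by
    intro y hy
    exact (ENNReal.ofReal_le_iff_le_toReal (hfin y)).2 (le_of_lt hy)
  have h3 : coin {y | ε < (g y).toReal} ≤ ENNReal.ofReal (I / ε) := by
    rw [ENNReal.ofReal_div_of_pos hε]
    exact (measure_mono h2).trans h1
  exact ENNReal.toReal_le_of_le_ofReal (div_nonneg hI0 hε.le) h3

theorem markov_left {T : Set ((ℕ → Bool) × (ℕ → Bool))} (hT : MeasurableSet T) {ε : ℝ}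
    (hε : 0 < ε) : coin.real {y | ε < coin.real {x | (y, x) ∈ T}} ≤
      (coin.prod coin).real T / ε := by
  refine FUB_markov (g := fun y => coin (Prod.mk y ⁻¹' T)) (measurable_measure_prodMk_left hT)
    (fun y => measure_ne_top _ _) hε measureReal_nonneg ?_
  rw [← Measure.prod_apply hT, ofReal_measureReal (measure_ne_top _ _)]

theorem markov_right {T : Set ((ℕ → Bool) × (ℕ → Bool))} (hT : MeasurableSet T) {ε : ℝ}
    (hε : 0 < ε) : coin.real {x | ε < coin.real {y | (y, x) ∈ T}} ≤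
      (coin.prod coin).real T / ε := by
  refine FUB_markov (g := fun x => coin ((fun y => (y, x)) ⁻¹' T))
    (measurable_measure_prodMk_right hT) (fun y => measure_ne_top _ _) hε measureReal_nonneg ?_
  rw [← Measure.prod_apply_symm hT, ofReal_measureReal (measure_ne_top _ _)]

theorem prod_le_of_section {T : Set ((ℕ → Bool) × (ℕ → Bool))} (hT : MeasurableSet T) {ε : ℝ}
    (h : ∀ y, coin.real {x | (y, x) ∈ T} ≤ ε) : (coin.prod coin).real T ≤ ε := by
  have hε : 0 ≤ ε := measureReal_nonneg.trans (h fun _ => false)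
  refine ENNReal.toReal_le_of_le_ofReal hε ?_
  rw [Measure.prod_apply hT]
  calc ∫⁻ y, coin (Prod.mk y ⁻¹' T) ∂coin ≤ ∫⁻ _, ENNReal.ofReal ε ∂coin := by
        refine lintegral_mono fun y => ?_
        rw [← ofReal_measureReal (μ := coin) (s := Prod.mk y ⁻¹' T) (measure_ne_top _ _)]
        exact ENNReal.ofReal_le_ofReal (h y)
    _ = ENNReal.ofReal ε := by simp

theorem S1_compl (h : Sys f M lab) : coin.real (S1 f M lab)ᶜ ≤ 1 / 2 ^ 13 := by
  have hT : MeasurableSet (SS f M lab)ᶜ := (measurableSet_SS h.meas).compl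
  have h1 := markov_left hT (ε := 1 / 2 ^ 13) (by positivity)
  have e : (S1 f M lab)ᶜ = {y | (1 : ℝ) / 2 ^ 13 < coin.real {x | (y, x) ∈ (SS f M lab)ᶜ}} := by
    ext y
    simp only [S1, Set.mem_compl_iff, Set.mem_ofPred_eq, not_le]
  rw [e]
  refine h1.trans ?_
  rw [div_le_iff₀ (by positivity)]
  refine h.small.trans (le_of_eq ?_)
  norm_num

theorem S2_compl (h : Sys f M lab) : coin.real (S2 f M lab)ᶜ ≤ 1 / 2 ^ 13 := by
  have hT : MeasurableSet (SS f M lab)ᶜ := (measurableSet_SS h.meas).compl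
  have h1 := markov_right hT (ε := 1 / 2 ^ 13) (by positivity)
  have e : (S2 f M lab)ᶜ = {x | (1 : ℝ) / 2 ^ 13 < coin.real {y | (y, x) ∈ (SS f M lab)ᶜ}} := by
    ext y
    simp only [S2, Set.mem_compl_iff, Set.mem_ofPred_eq, not_le]
  rw [e]
  refine h1.trans ?_
  rw [div_le_iff₀ (by positivity)]
  refine h.small.trans (le_of_eq ?_)
  norm_num

end Pool.Agent.MCL
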