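import Mathlib
import Pool.Agent.MCL.DLA

/-!
Measure classification, module GAM: the real number.

Sketch. `md (pre P t) s / 2^(2t+1)` is the maximum of `0` and of
`dl (pre P t') s * 4^(t-t') / 2^(2t+1) = dl (pre P t') s / 2^(2t'+1)` for `s ≤ t' ≤ t`
(`(pre P t).take t' = pre P t'`): `le_Dst`, `Dst_cases`. `Gt_eq`: `2^(t-s) / 2^(3t+2) =
(1/2)^(s+1) / 2^(2t+1)` for `s ≤ t`. `Dst_gap`: the terms of `Gt t' - Gt t` are nonnegative
(`Dst_mono`). `Gt_good`: the terms of `Gt t - Gt s`: for `j ≤ s`, `Dst j t ≤ Dst j s + 8/2^m + 1/2^s`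
(for `s < t' ≤ t`, `dl.. ≤ dd (pre P j) (pre P t') ≤ dd (pre P j) (pre P s) + 8/2^m` and
`dd_le_Dst`), and `1/2^s ≤ 1/2^m`; for `j > s`, `Dst j t ≤ 8/2^m`; `∑ (1/2)^(j+1) ≤ 1`.
-/

set_option autoImplicit false

namespace Pool.Agent.MCL

open MeasureTheory Encodable Pool.Agent.H19 Pool.Agent.AEI Pool.Agent.RJ
open Nat.Partrec (Code)

variable {M : ℕ} {lab : List Bool → Code} {r : Code} {P : ℕ → Bool}

private theorem gam_fold_succ (s : ℕ) (g : ℕ → ℕ) (N : ℕ) :
    (List.range (N + 1)).foldl (fun a t => if decide (s ≤ t) then max a (g t) else a) 0 =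
      if decide (s ≤ N) then
        max ((List.range N).foldl (fun a t => if decide (s ≤ t) then max a (g t) else a) 0) (g N)
      else (List.range N).foldl (fun a t => if decide (s ≤ t) then max a (g t) else a) 0 := by
  rw [List.range_succ, List.foldl_append]
  rfl

private theorem gam_le_fold (s : ℕ) (g : ℕ → ℕ) (N t' : ℕ) (h : s ≤ t') (h' : t' < N) :
    g t' ≤ (List.range N).foldl (fun a t => if decide (s ≤ t) then max a (g t) else a) 0 := by
  induction N with
  | zero => omega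
  | succ N ih =>
    rw [gam_fold_succ]
    rcases Nat.lt_or_ge t' N with h1 | h1
    · have h2 := ih h1
      split_ifs
      · exact h2.trans (le_max_left _ _)
      · exact h2
    · have h3 : t' = N := by omega
      subst h3
      rw [if_pos (by simpa using h)]
      exact le_max_right _ _

private theorem gam_fold_cases (s : ℕ) (g : ℕ → ℕ) (N : ℕ) :
    (List.range N).foldl (fun a t => if decide (s ≤ t) then max a (g t) else a) 0 = 0 ∨
    ∃ t', s ≤ t' ∧ t' < N ∧
      (List.range N).foldl (fun a t => if decide (s ≤ t) then max a (g t) else a) 0 = g t' := by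
  induction N with
  | zero => left; rfl
  | succ N ih =>
    rw [gam_fold_succ]
    by_cases hs : s ≤ N
    · rw [if_pos (by simpa using hs)]
      rcases le_total ((List.range N).foldl (fun a t => if decide (s ≤ t) then max a (g t) else a) 0)
        (g N) with h | h
      · right
        exact ⟨N, hs, by omega, by rw [max_eq_right h]⟩
      · rw [max_eq_left h]
        rcases ih with h1 | ⟨t', h1, h2, h3⟩
        · left; exact h1
        · right; exact ⟨t', h1, by omega, h3⟩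
    · rw [if_neg (by simpa using hs)]
      rcases ih with h1 | ⟨t', h1, h2, h3⟩
      · left; exact h1
      · right; exact ⟨t', h1, by omega, h3⟩

private theorem gam_scale {t' t : ℕ} (h : t' ≤ t) (x : ℕ) :
    ((x * 4 ^ (t - t') : ℕ) : ℝ) / 2 ^ (2 * t + 1) = (x : ℝ) / 2 ^ (2 * t' + 1) := by
  have h1 : (2 : ℝ) ^ (2 * t + 1) = 2 ^ (2 * t' + 1) * 4 ^ (t - t') := by
    have h2 : (4 : ℝ) = 2 ^ 2 := by norm_num
    rw [h2, ← pow_mul, ← pow_add]
    congr 1
    omega
  rw [h1]
  push_cast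
  rw [mul_div_mul_right _ _ (by positivity)]

private theorem gam_md (t s : ℕ) : md M lab r (pre P t) s =
    (List.range (t + 1)).foldl (fun a t' =>
      if decide (s ≤ t') then max a (dl M lab r ((pre P t).take t') s * 4 ^ (t - t')) else a) 0 := by
  unfold md
  rw [pre_length]

theorem le_Dst {s t' t : ℕ} (h : s ≤ t') (h' : t' ≤ t) :
    (dl M lab r (pre P t') s : ℝ) / 2 ^ (2 * t' + 1) ≤ Dst M lab r P s t := by
  have h1 := gam_le_fold s (fun t' => dl M lab r ((pre P t).take t') s * 4 ^ (t - t')) (t + 1) t' h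
    (by omega)
  rw [← gam_md] at h1
  simp only [pre_take P h'] at h1
  rw [← gam_scale h']
  unfold Dst
  have h2 : ((dl M lab r (pre P t') s * 4 ^ (t - t') : ℕ) : ℝ) ≤ (md M lab r (pre P t) s : ℝ) := by
    exact_mod_cast h1
  exact div_le_div_of_nonneg_right h2 (by positivity)

theorem Dst_cases (s t : ℕ) : Dst M lab r P s t = 0 ∨ ∃ t', s ≤ t' ∧ t' ≤ t ∧
    Dst M lab r P s t = (dl M lab r (pre P t') s : ℝ) / 2 ^ (2 * t' + 1) := by
  rcases gam_fold_cases s (fun t' => dl M lab r ((pre P t).take t') s * 4 ^ (t - t')) (t + 1) with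
    h | ⟨t', h1, h2, h3⟩
  · left
    rw [← gam_md] at h
    unfold Dst
    rw [h]
    simp
  · right
    have h2' : t' ≤ t := by omega
    refine ⟨t', h1, h2', ?_⟩
    rw [← gam_md] at h3
    simp only [pre_take P h2'] at h3
    unfold Dst
    rw [h3, gam_scale h2']

theorem Dst_nonneg (s t : ℕ) : 0 ≤ Dst M lab r P s t := by
  unfold Dst
  positivity

theorem Dst_mono {s t t' : ℕ} (h : t ≤ t') : Dst M lab r P s t ≤ Dst M lab r P s t' := by
  rcases Dst_cases (M := M) (lab := lab) (r := r) (P := P) s t with h1 | ⟨u, h1, h2, h3⟩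
  · rw [h1]
    exact Dst_nonneg _ _
  · rw [h3]
    exact le_Dst h1 (h2.trans h)

theorem Dst_le {s t : ℕ} {c : ℝ} (hc : 0 ≤ c)
    (h : ∀ t', s ≤ t' → t' ≤ t → dd M lab r (pre P s) (pre P t') ≤ c) :
    Dst M lab r P s t ≤ c := by
  rcases Dst_cases (M := M) (lab := lab) (r := r) (P := P) s t with h1 | ⟨u, h1, h2, h3⟩
  · rw [h1]
    exact hc
  · rw [h3]
    exact (dl_le h1).trans (h u h1 h2)

theorem Dst_le_two (s t : ℕ) : Dst M lab r P s t ≤ 2 :=
  Dst_le (by norm_num) fun _ _ _ => dd_le_two _ _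

theorem dd_le_Dst {s t' t : ℕ} (h : s ≤ t') (h' : t' ≤ t) :
    dd M lab r (pre P s) (pre P t') ≤ Dst M lab r P s t + 1 / 2 ^ t' := by
  have h1 := le_dl (M := M) (lab := lab) (r := r) (P := P) h
  have h2 := le_Dst (M := M) (lab := lab) (r := r) (P := P) h h'
  linarith

theorem Dst_good (h : Sys (fP r P) M lab) {m s : ℕ} (hs : SG M lab r P m s) (hm : m ≤ s)
    (t : ℕ) : Dst M lab r P s t ≤ 8 / 2 ^ m :=
  Dst_le (by positivity) fun t' h1 _ => dd_good h hs (SG_mono hs h1) hm (hm.trans h1)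

private theorem gam_sum_range (f : ℕ → ℕ) (N : ℕ) :
    ((List.range N).map f).sum = ∑ i ∈ Finset.range N, f i := by
  induction N with
  | zero => simp
  | succ N ih =>
    rw [List.range_succ, List.map_append, List.sum_append, ih, Finset.sum_range_succ]
    simp

theorem Gt_eq (t : ℕ) :
    Gt M lab r P t = ∑ s ∈ Finset.range (t + 1), (1 / 2) ^ (s + 1) * Dst M lab r P s t := by
  unfold Gt GG
  rw [pre_length, gam_sum_range, Nat.cast_sum, Finset.sum_div]
  refine Finset.sum_congr rfl fun s hs => ?_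
  have hst : s ≤ t := by
    have := Finset.mem_range.1 hs
    omega
  unfold Dst
  have h1 : (2 : ℝ) ^ (3 * t + 2) = 2 ^ (t - s) * (2 ^ (s + 1) * 2 ^ (2 * t + 1)) := by
    rw [← pow_add, ← pow_add]
    congr 1
    omega
  rw [h1]
  push_cast
  rw [mul_div_mul_left _ _ (by positivity), one_div, inv_pow]
  field_simp

private theorem gam_half (N : ℕ) : ∑ s ∈ Finset.range N, (1 / 2 : ℝ) ^ (s + 1) = 1 - (1 / 2) ^ N := by
  induction N with
  | zero => simp
  | succ N ih =>
    rw [Finset.sum_range_succ, ih, pow_succ]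
    ring

private theorem gam_half_le (N : ℕ) : ∑ s ∈ Finset.range N, (1 / 2 : ℝ) ^ (s + 1) ≤ 1 := by
  rw [gam_half]
  have : (0 : ℝ) ≤ (1 / 2) ^ N := by positivity
  linarith

private theorem gam_le_of (t t' : ℕ) (h : t ≤ t') :
    ∑ s ∈ Finset.range (t + 1), (1 / 2) ^ (s + 1) * Dst M lab r P s t' ≤ Gt M lab r P t' := by
  rw [Gt_eq]
  refine Finset.sum_le_sum_of_subset_of_nonneg ?_ fun i _ _ =>
    mul_nonneg (by positivity) (Dst_nonneg _ _)
  intro i hi
  rw [Finset.mem_range] at hi ⊢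
  omega

theorem Gt_mono {t t' : ℕ} (h : t ≤ t') : Gt M lab r P t ≤ Gt M lab r P t' := by
  refine le_trans ?_ (gam_le_of t t' h)
  rw [Gt_eq]
  exact Finset.sum_le_sum fun s _ => mul_le_mul_of_nonneg_left (Dst_mono h) (by positivity)

theorem Gt_nonneg (t : ℕ) : 0 ≤ Gt M lab r P t := by
  unfold Gt
  positivity

theorem Gt_le_two (t : ℕ) : Gt M lab r P t ≤ 2 := by
  rw [Gt_eq]
  calc ∑ s ∈ Finset.range (t + 1), (1 / 2) ^ (s + 1) * Dst M lab r P s t
      ≤ ∑ s ∈ Finset.range (t + 1), (1 / 2 : ℝ) ^ (s + 1) * 2 :=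
        Finset.sum_le_sum fun s _ => mul_le_mul_of_nonneg_left (Dst_le_two _ _) (by positivity)
    _ = (∑ s ∈ Finset.range (t + 1), (1 / 2 : ℝ) ^ (s + 1)) * 2 := by rw [Finset.sum_mul]
    _ ≤ 2 := by linarith [gam_half_le (t + 1)]

theorem Dst_gap {s t t' : ℕ} (h : s ≤ t) (h' : t ≤ t') :
    Dst M lab r P s t' - Dst M lab r P s t ≤
      2 ^ (s + 1) * (Gt M lab r P t' - Gt M lab r P t) := by
  have h1 := gam_le_of (M := M) (lab := lab) (r := r) (P := P) t t' h'
  have h2 := Gt_eq (M := M) (lab := lab) (r := r) (P := P) t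
  have h3 : (1 / 2 : ℝ) ^ (s + 1) * (Dst M lab r P s t' - Dst M lab r P s t) ≤
      ∑ j ∈ Finset.range (t + 1), (1 / 2 : ℝ) ^ (j + 1) *
        (Dst M lab r P j t' - Dst M lab r P j t) := by
    refine Finset.single_le_sum (f := fun j => (1 / 2 : ℝ) ^ (j + 1) *
      (Dst M lab r P j t' - Dst M lab r P j t)) (fun j _ => ?_)
      (Finset.mem_range.2 (by omega))
    exact mul_nonneg (by positivity) (sub_nonneg.2 (Dst_mono h'))
  simp only [mul_sub, Finset.sum_sub_distrib] at h3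
  rw [← h2] at h3
  have h4 : (1 / 2 : ℝ) ^ (s + 1) * Dst M lab r P s t' - (1 / 2) ^ (s + 1) * Dst M lab r P s t ≤
      Gt M lab r P t' - Gt M lab r P t := by linarith
  have h5 : (2 : ℝ) ^ (s + 1) * (1 / 2) ^ (s + 1) = 1 := by
    rw [← mul_pow]
    norm_num
  calc Dst M lab r P s t' - Dst M lab r P s t
      = 2 ^ (s + 1) * ((1 / 2 : ℝ) ^ (s + 1) * Dst M lab r P s t' -
        (1 / 2) ^ (s + 1) * Dst M lab r P s t) := by
        rw [← mul_sub, ← mul_assoc, h5, one_mul]
    _ ≤ 2 ^ (s + 1) * (Gt M lab r P t' - Gt M lab r P t) :=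
        mul_le_mul_of_nonneg_left h4 (by positivity)

theorem Gt_good (h : Sys (fP r P) M lab) {m s t : ℕ} (hs : SG M lab r P m s) (hm : m ≤ s)
    (hst : s ≤ t) : Gt M lab r P t ≤ Gt M lab r P s + 9 / 2 ^ m := by
  have hpos : (0 : ℝ) < 2 ^ m := by positivity
  have h89 : (8 : ℝ) / 2 ^ m ≤ 9 / 2 ^ m := div_le_div_of_nonneg_right (by norm_num) hpos.le
  -- bound of the terms
  have key1 : ∀ j, j ≤ s → Dst M lab r P j t ≤ Dst M lab r P j s + 9 / 2 ^ m := by
    intro j hj
    have h0 : (0 : ℝ) ≤ 9 / 2 ^ m := by positivity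
    rcases Dst_cases (M := M) (lab := lab) (r := r) (P := P) j t with h1 | ⟨u, h1, h2, h3⟩
    · rw [h1]
      exact add_nonneg (Dst_nonneg _ _) h0
    · rcases Nat.lt_or_ge s u with hu | hu
      · have h4 := dl_le (M := M) (lab := lab) (r := r) (P := P) h1
        have h5 := dd_triangle (M := M) (lab := lab) (r := r) (pre P j) (pre P s) (pre P u)
        have h6 := dd_good h hs (SG_mono hs hu.le) hm (hm.trans hu.le)
        have h7 := dd_le_Dst (M := M) (lab := lab) (r := r) (P := P) hj (le_refl s)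
        have h8 : (1 : ℝ) / 2 ^ s ≤ 1 / 2 ^ m :=
          one_div_le_one_div_of_le hpos (pow_le_pow_right₀ (by norm_num) hm)
        have h9 : (9 : ℝ) / 2 ^ m = 8 / 2 ^ m + 1 / 2 ^ m := by ring
        rw [h3]
        linarith
      · rw [h3]
        have := le_Dst (M := M) (lab := lab) (r := r) (P := P) h1 hu
        linarith
  have key2 : ∀ j, s ≤ j → Dst M lab r P j t ≤ 9 / 2 ^ m := fun j hj =>
    (Dst_good h (SG_mono hs hj) (hm.trans hj) t).trans h89
  rw [Gt_eq t, Gt_eq s]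
  have hsplit : ∑ j ∈ Finset.range (t + 1), (1 / 2 : ℝ) ^ (j + 1) * Dst M lab r P j t ≤
      ∑ j ∈ Finset.range (t + 1), ((if j ≤ s then (1 / 2 : ℝ) ^ (j + 1) * Dst M lab r P j s else 0) +
        (1 / 2 : ℝ) ^ (j + 1) * (9 / 2 ^ m)) := by
    refine Finset.sum_le_sum fun j _ => ?_
    split_ifs with hj
    · rw [← mul_add]
      exact mul_le_mul_of_nonneg_left (key1 j hj) (by positivity)
    · rw [zero_add]
      exact mul_le_mul_of_nonneg_left (key2 j (by omega)) (by positivity)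
  refine hsplit.trans ?_
  rw [Finset.sum_add_distrib, ← Finset.sum_mul]
  have e1 : ∑ j ∈ Finset.range (t + 1), (if j ≤ s then (1 / 2 : ℝ) ^ (j + 1) * Dst M lab r P j s
      else 0) = ∑ j ∈ Finset.range (s + 1), (1 / 2 : ℝ) ^ (j + 1) * Dst M lab r P j s := by
    rw [← Finset.sum_filter]
    refine Finset.sum_congr ?_ fun _ _ => rfl
    ext j
    simp only [Finset.mem_filter, Finset.mem_range]
    omega
  rw [e1]
  have e2 : (∑ j ∈ Finset.range (t + 1), (1 / 2 : ℝ) ^ (j + 1)) * (9 / 2 ^ m) ≤ 9 / 2 ^ m := by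
    have h0 : (0 : ℝ) ≤ 9 / 2 ^ m := by positivity
    exact mul_le_of_le_one_left h0 (gam_half_le _)
  linarith

theorem Aq_iff {p k : ℕ} : Aq M lab r P (Nat.pair p k) = true ↔
    ∃ t, (p : ℝ) / 2 ^ k < Gt M lab r P t := by
  unfold Aq Gt
  simp only [decide_eq_true_eq, Nat.unpair_pair]
  refine exists_congr fun t => ?_
  rw [div_lt_div_iff₀ (by positivity) (by positivity)]
  constructor
  · intro h
    exact_mod_cast h
  · intro h
    exact_mod_cast h

end Pool.Agent.MCL
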