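import Mathlib
import Pool.Agent.MCL.Defs
import Pool.Agent.RJ.GJA
import Pool.Agent.RJ.GJE
import Pool.Agent.RJ.CAD
import Pool.Agent.RJ.CUT

/-!
Measure classification, module GLO: `(P ⊕ X)' ≤ P' ⊕ X` for almost all `X`.
-/

set_option autoImplicit false

namespace Pool.Agent.MCL

open MeasureTheory Encodable Pool.Agent.H19 Pool.Agent.AEI Pool.Agent.RJ
open Nat.Partrec (Code)

/-- The number of strings `α` such that the question `k` is answered yes by `β` and `α`. -/
private def qn (k : ℕ) (β : List Bool) : ℕ :=
  ((strs β.length).filter fun α => jap k (jns β α)).length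

/-- The length of the list of the strings of length `s`. -/
private def pw (s : ℕ) : ℕ := (strs s).length

private theorem pw_eq (s : ℕ) : pw s = 2 ^ s := strs_length s

/-- The test: the measure increases after the stage `s`. -/
private def tst (p : ℕ) (σ : List Bool) : Bool :=
  decide (p.unpair.2 ≤ σ.length) &&
    decide (qn p.unpair.1 (σ.take p.unpair.2) * (pw p.unpair.1 * pw σ.length) +
      pw p.unpair.2 * pw σ.length < qn p.unpair.1 σ * (pw p.unpair.2 * pw p.unpair.1))

private theorem comp_pw {α : Type*} [Primcodable α] {f : α → ℕ} (hf : Computable f) :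
    Computable fun a => pw (f a) := Computable.list_length.comp (comp_strs.comp hf)

private theorem comp_qn {α : Type*} [Primcodable α] {k : α → ℕ} {b : α → List Bool}
    (hk : Computable k) (hb : Computable b) : Computable fun a => qn (k a) (b a) := by
  refine Computable.list_length.comp (comp_list_filter
    (g := fun a σ => jap (k a) (jns (b a) σ)) (comp_strs.comp (Computable.list_length.comp hb)) ?_)
  exact comp_jap (hk.comp Computable.fst) (comp_jns (hb.comp Computable.fst) Computable.snd)

private theorem comp_tst : Computable₂ tst := by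
  have h1 : Computable fun p : ℕ × List Bool => p.1.unpair.1 :=
    Computable.fst.comp (Computable.unpair.comp Computable.fst)
  have h2 : Computable fun p : ℕ × List Bool => p.1.unpair.2 :=
    Computable.snd.comp (Computable.unpair.comp Computable.fst)
  have h3 : Computable fun p : ℕ × List Bool => p.2.length :=
    Computable.list_length.comp Computable.snd
  refine comp_and (comp_decLe h2 h3) (comp_decLt ?_ ?_)
  · exact comp_add' (comp_mul' (comp_qn h1 (comp_take h2 Computable.snd))
      (comp_mul' (comp_pw h1) (comp_pw h3))) (comp_mul' (comp_pw h2) (comp_pw h3))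
  · exact comp_mul' (comp_qn h1 Computable.snd) (comp_mul' (comp_pw h2) (comp_pw h1))

/-- The set where the question `k` is answered yes at the stage `s`. -/
private def AA (P : ℕ → Bool) (k s : ℕ) : Set (ℕ → Bool) := {X | jmp P k (pre X s) = true}

private theorem meas_AA (P : ℕ → Bool) (k s : ℕ) : MeasurableSet (AA P k s) :=
  measurableSet_pre (fun σ => jmp P k σ) s

private theorem AA_mono (P : ℕ → Bool) (k : ℕ) : Monotone (AA P k) := by
  intro s t h X hX
  exact jmp_mono (pre_mono X h) hX

private theorem real_AA (P : ℕ → Bool) (k s : ℕ) :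
    coin.real (AA P k s) = qn k (pre P s) / pw s := by
  rw [AA, CAD_real_count, pw_eq, inv_pow, ← div_eq_mul_inv]
  have h1 : (strs s).filter (jmp P k) = (strs s).filter fun α => jap k (jns (pre P s) α) := by
    refine List.filter_congr fun α hα => ?_
    rw [jmp, mem_strs.1 hα]
  rw [qn, pre_length, h1]
  push_cast
  rfl

private theorem tst_iff (P : ℕ → Bool) (k s t : ℕ) : tst (Nat.pair k s) (pre P t) = true ↔
    s ≤ t ∧ coin.real (AA P k s) + 1 / 2 ^ k < coin.real (AA P k t) := by
  rw [tst, Bool.and_eq_true, decide_eq_true_iff, decide_eq_true_iff, pre_length, Nat.unpair_pair]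
  refine and_congr_right fun hst => ?_
  rw [real_AA, real_AA]
  simp only [pre_take P hst, pw_eq]
  have hs : (0 : ℝ) < 2 ^ s := by positivity
  have ht : (0 : ℝ) < 2 ^ t := by positivity
  have hk : (0 : ℝ) < 2 ^ k := by positivity
  have e1 : ((qn k (pre P s) : ℝ) / ((2 ^ s : ℕ) : ℝ) + 1 / 2 ^ k) =
      (qn k (pre P s) * (2 ^ k * 2 ^ t) + 2 ^ s * 2 ^ t) / (2 ^ s * 2 ^ k * 2 ^ t) := by
    push_cast
    field_simp
  have e2 : (qn k (pre P t) : ℝ) / ((2 ^ t : ℕ) : ℝ) =
      (qn k (pre P t) * (2 ^ s * 2 ^ k)) / (2 ^ s * 2 ^ k * 2 ^ t) := by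
    push_cast
    field_simp
  rw [e1, e2, div_lt_div_iff_of_pos_right (by positivity)]
  exact_mod_cast Iff.rfl

open Classical in
/-- The question whether the measure increases after the stage `s`. -/
private noncomputable def EE (P : ℕ → Bool) : ℕ → Bool :=
  fun p => decide (∃ t, tst p (pre P t) = true)

private theorem EE_iff {P : ℕ → Bool} {p : ℕ} : EE P p = true ↔ ∃ t, tst p (pre P t) = true := by
  simp [EE]

private theorem EE_le (P : ℕ → Bool) : TuringReducible (chi (EE P)) (chi (JJ P)) := by
  obtain ⟨c, hc⟩ := exists_code_dom comp_tst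
  refine code_le_JJ (c := c) fun n => ?_
  simp only [EE_iff, hc]

private theorem exists_stage (P : ℕ → Bool) (k : ℕ) : ∃ s, EE P (Nat.pair k s) = false := by
  by_contra hcon
  push Not at hcon
  have hb : BddAbove (Set.range fun s => coin.real (AA P k s)) :=
    ⟨1, by rintro _ ⟨s, rfl⟩; exact measureReal_le_one⟩
  have h2 : (0 : ℝ) < 1 / 2 ^ k := by positivity
  obtain ⟨_, ⟨s, rfl⟩, hs⟩ := exists_lt_of_lt_csSup (Set.range_nonempty fun s =>
    coin.real (AA P k s)) (sub_lt_self (sSup (Set.range fun s => coin.real (AA P k s))) h2)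
  have h3 := hcon s
  rw [Ne, Bool.not_eq_false, EE_iff] at h3
  obtain ⟨t, ht⟩ := h3
  have h4 := ((tst_iff P k s t).1 ht).2
  have h5 : coin.real (AA P k t) ≤ sSup (Set.range fun s => coin.real (AA P k s)) :=
    le_csSup hb ⟨t, rfl⟩
  simp only at hs
  linarith

private theorem diff_small (P : ℕ → Bool) {k s : ℕ} (h : EE P (Nat.pair k s) = false) :
    coin {X | JJ (jn P X) k = true ∧ X ∉ AA P k s} ≤ (2⁻¹ : ENNReal) ^ k := by
  have h0 : {X | JJ (jn P X) k = true ∧ X ∉ AA P k s} = ⋃ t, (AA P k t \ AA P k s) := by
    ext X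
    simp only [Set.mem_ofPred_eq, Set.mem_iUnion, Set.mem_sdiff, JJ_jn_iff, AA]
    constructor
    · rintro ⟨⟨t, ht⟩, h2⟩
      exact ⟨t, ht, h2⟩
    · rintro ⟨t, ht, h2⟩
      exact ⟨⟨t, ht⟩, h2⟩
  rw [h0, Monotone.measure_iUnion (fun a b hab => Set.sdiff_subset_sdiff_left (AA_mono P k hab))]
  refine iSup_le fun t => ?_
  have hle : coin.real (AA P k t) ≤ coin.real (AA P k s) + 1 / 2 ^ k := by
    rcases le_total s t with hst | hst
    · by_contra hcon
      rw [not_le] at hcon
      have h1 : EE P (Nat.pair k s) = true := EE_iff.2 ⟨t, (tst_iff P k s t).2 ⟨hst, hcon⟩⟩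
      rw [h] at h1
      exact absurd h1 (by simp)
    · have h1 := measureReal_mono (μ := coin) (AA_mono P k hst)
      have h2 : (0 : ℝ) < 1 / 2 ^ k := by positivity
      linarith
  have hd : coin.real (AA P k t \ AA P k s) ≤ 1 / 2 ^ k := by
    rcases le_total s t with hst | hst
    · rw [measureReal_sdiff (AA_mono P k hst) (meas_AA P k s)]
      linarith
    · have : AA P k t \ AA P k s = ∅ := Set.sdiff_eq_empty.2 (AA_mono P k hst)
      rw [this, measureReal_empty]
      positivity
  rw [← ofReal_measureReal (μ := coin) (s := AA P k t \ AA P k s) (measure_ne_top _ _)]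
  refine (ENNReal.ofReal_le_ofReal hd).trans (le_of_eq ?_)
  rw [one_div, ← inv_pow, ENNReal.ofReal_pow (by positivity), ENNReal.ofReal_inv_of_pos (by norm_num)]
  norm_num

theorem jump_join (P : ℕ → Bool) :
    ∀ᵐ X ∂coin, TuringReducible (chi (JJ (jn P X))) (chi (jn (JJ P) X)) := by
  classical
  have hE := totRec_bool_iff.2 (EE_le P)
  obtain ⟨g, hg, hg0⟩ := exists_select (Z := JJ P) (t := fun n q => if EE P (Nat.pair n q) then 1
    else 0) (by simpa [Nat.pair_unpair] using hE) (fun n => by
      obtain ⟨s, hs⟩ := exists_stage P n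
      exact ⟨s, by simp [hs]⟩)
  have hg1 : ∀ n, EE P (Nat.pair n (g n)) = false := by
    intro n
    have := hg0 n
    by_contra hcon
    rw [Bool.not_eq_false] at hcon
    rw [if_pos hcon] at this
    exact absurd this one_ne_zero
  have hsum : (∑' k, coin {X | JJ (jn P X) k = true ∧ X ∉ AA P k (g k)}) ≠ ⊤ := by
    refine ne_top_of_le_ne_top ?_ (ENNReal.tsum_le_tsum fun k => diff_small P (hg1 k))
    rw [ENNReal.tsum_geometric]
    norm_num
  filter_upwards [ae_eventually_notMem hsum] with X hX
  obtain ⟨n0, hn0⟩ := Filter.eventually_atTop.1 hX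
  have hval : ∀ n, n0 ≤ n → JJ (jn P X) n = jap n (pre (jn P X) (2 * g n)) := by
    intro n hn
    rw [← jmp_pre]
    by_cases h1 : jmp P n (pre X (g n)) = true
    · rw [h1]
      exact JJ_jn_iff.2 ⟨_, h1⟩
    · rw [Bool.not_eq_true] at h1
      rw [h1]
      by_contra hcon
      rw [Bool.not_eq_false] at hcon
      refine hn0 n hn ⟨hcon, ?_⟩
      show ¬ jmp P n (pre X (g n)) = true
      rw [h1]
      simp
  -- the reduction
  rw [← totRec_bool_iff]
  have hgX : TotRec (jn (JJ P) X) g := totRec_mono hg (left_le_jn _ _)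
  have hg2 : TotRec (jn (JJ P) X) (fun n => 2 * g n) :=
    TotRec.comp_computable (f := fun n => 2 * n)
      (comp_mul' (Computable.const 2) Computable.id) hgX
  have hle : TuringReducible (chi (jn P X)) (chi (jn (JJ P) X)) :=
    jn_le ((le_JJ P).trans (left_le_jn _ _)) (right_le_jn _ _)
  have hp : TotRec (jn (JJ P) X) (fun n => encode (pre (jn P X) (2 * g n))) :=
    (totRec_mono (TotRec.pre (jn P X)) hle).comp hg2
  have hF : Computable₂ (fun n i : ℕ => if decide (n < n0) then
      (if ((List.range n0).map (JJ (jn P X))).getD n false then 1 else 0) else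
      (if jap n ((decode (α := List Bool) i).getD []) then 1 else 0)) := by
    refine comp_ite (c := fun p : ℕ × ℕ => decide (p.1 < n0))
      (comp_decLt Computable.fst (Computable.const n0)) ?_ ?_
    · exact comp_ite (c := fun p : ℕ × ℕ => ((List.range n0).map (JJ (jn P X))).getD p.1 false)
        (comp_getD (Computable.const _) Computable.fst) (Computable.const 1) (Computable.const 0)
    · exact comp_ite (c := fun p : ℕ × ℕ => jap p.1 ((decode (α := List Bool) p.2).getD []))
        (comp_jap Computable.fst (Computable.option_getD (Computable.decode.comp Computable.snd)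
          (Computable.const []))) (Computable.const 1) (Computable.const 0)
  refine (TotRec.comp_computable₂ hF (TotRec.of_computable Computable.id) hp :
    Nat.RecursiveIn _ _).of_eq fun n => ?_
  simp only [id_eq, encodek, Option.getD_some]
  by_cases hn : n < n0
  · have h1 : ((List.range n0).map (JJ (jn P X))).getD n false = JJ (jn P X) n := by
      rw [List.getD_eq_getElem?_getD, List.getElem?_map, List.getElem?_range hn]
      rfl
    simp only [hn, decide_true, if_true, h1]
  · simp only [hn, decide_false, Bool.false_eq_true, if_false, hval n (not_lt.1 hn)]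

end Pool.Agent.MCL
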