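import Mathlib
import Pool.Agent.MCL.FUB

/-!
Measure classification, module LBE: every `y` in `S1` has labels of all levels.

Sketch. Induction on `n`. `n = 0`: the label is `[]`. `n + 1`: all `x` in `S1` have a label `ρ'` of
level `n`. The sets `A L := {x | rch n (out (pre x L) (pre (FF f y) L))}` increase with `L`
(`out_mono`, `rch_mono`); each `x` in `S1` with `(y, x) ∈ SS` is in one of them: `IsPre ρ' (FF f x)`
and `out_long`. This set has measure `≥ 1 - 2/2^13 > 2047/2048` (`S1_compl`, `y ∈ S1`). By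
continuity of the measure from below there is `L ≥ n + 1` with `2047/2048 ≤ coin.real (A L)`, so
`rch (n + 1) (pre (FF f y) L)` (`rch_succ_iff`) and `exists_lab_of_rch`.
-/

set_option autoImplicit false

namespace Pool.Agent.MCL

open MeasureTheory Encodable Pool.Agent.H19 Pool.Agent.AEI Pool.Agent.RJ
open Nat.Partrec (Code)

variable {f : (ℕ → Bool) → (ℕ → Bool)} {M : ℕ} {lab : List Bool → Code}

/-- Sets which increase to a set of large measure. -/
theorem exists_large {A : ℕ → Set (ℕ → Bool)} (hm : ∀ i j, i ≤ j → A i ⊆ A j) {c : ℝ}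
    (h : c < coin.real (⋃ i, A i)) : ∃ i0, ∀ i ≥ i0, c < coin.real (A i) := by
  have hmono : Monotone A := fun i j hij => hm i j hij
  have h1 := tendsto_measure_iUnion_atTop (μ := coin) hmono
  have h2 : Filter.Tendsto (fun i => coin.real (A i)) Filter.atTop
      (nhds (coin.real (⋃ i, A i))) :=
    (ENNReal.tendsto_toReal (measure_ne_top coin _)).comp h1
  exact Filter.eventually_atTop.1 (h2.eventually_const_lt h)

theorem exists_lab (h : Sys f M lab) (n : ℕ) {y : ℕ → Bool} (hy : y ∈ S1 f M lab) :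
    ∃ ρ, Lab f M lab n y ρ := by
  induction n generalizing y with
  | zero =>
    exact ⟨[], rfl, rch_zero [], fun k hk => absurd hk (Nat.not_lt_zero _)⟩
  | succ n ih =>
    set A : ℕ → Set (ℕ → Bool) := fun L =>
      {x | rch M lab n (out M lab (pre x L) (pre (FF f y) L)) = true} with hA
    have hm : ∀ i j, i ≤ j → A i ⊆ A j := by
      intro i j hij x hx
      exact rch_mono (out_mono hij) hx
    have hsub : {x | x ∈ S1 f M lab ∧ (y, x) ∈ SS f M lab} ⊆ ⋃ i, A i := by
      rintro x ⟨hx, hyx⟩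
      obtain ⟨ρ, hρ⟩ := ih hx
      obtain ⟨L0, hL0⟩ := out_long hyx ρ.length
      have h1 := hL0 L0 le_rfl
      have h2 : ρ = pre (FF f x) ρ.length := hρ.1
      rw [← h2] at h1
      exact Set.mem_iUnion.2 ⟨L0, rch_mono h1 hρ.2.1⟩
    have hlarge : (2047 / 2048 : ℝ) < coin.real (⋃ i, A i) := by
      have h1 : coin.real {x | x ∈ S1 f M lab ∧ (y, x) ∈ SS f M lab} ≤ coin.real (⋃ i, A i) :=
        measureReal_mono hsub
      have h2 : (Set.univ : Set (ℕ → Bool)) ⊆ {x | x ∈ S1 f M lab ∧ (y, x) ∈ SS f M lab} ∪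
          ((S1 f M lab)ᶜ ∪ {x | (y, x) ∉ SS f M lab}) := by
        intro x _
        by_cases h3 : x ∈ S1 f M lab
        · by_cases h4 : (y, x) ∈ SS f M lab
          · exact Or.inl ⟨h3, h4⟩
          · exact Or.inr (Or.inr h4)
        · exact Or.inr (Or.inl h3)
      have h3 : (1 : ℝ) = coin.real (Set.univ : Set (ℕ → Bool)) := by simp
      have h4 := measureReal_mono (μ := coin) h2
      have h5 := measureReal_union_le (μ := coin)
        {x | x ∈ S1 f M lab ∧ (y, x) ∈ SS f M lab} ((S1 f M lab)ᶜ ∪ {x | (y, x) ∉ SS f M lab})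
      have h6 := measureReal_union_le (μ := coin) (S1 f M lab)ᶜ {x | (y, x) ∉ SS f M lab}
      have h7 := S1_compl h
      have h8 : coin.real {x | (y, x) ∉ SS f M lab} ≤ 1 / 2 ^ 13 := hy
      norm_num at h7 h8 ⊢
      linarith
    obtain ⟨i0, hi0⟩ := exists_large hm hlarge
    have h1 := hi0 (max i0 (n + 1)) (le_max_left _ _)
    have hr : rch M lab (n + 1) (pre (FF f y) (max i0 (n + 1))) = true := by
      rw [rch_succ_iff, pre_length]
      exact ⟨le_max_right _ _, h1.le⟩
    obtain ⟨ρ, hρ, -⟩ := exists_lab_of_rch (isPre_iff.2 ⟨_, rfl⟩) hr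
    exact ⟨ρ, hρ⟩

end Pool.Agent.MCL
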