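import Mathlib
import Pool.Agent.MCL.LBE

/-!
Measure classification, module GOD: most sequences are good at level `n`.

The pairs `(y, x)` with `y ∈ bad n x` are in the union of `{y ∉ S1}`, `SSᶜ` and
`{(y, x) | y ∈ S1, and for the label ρ of level n + 1 of y, ¬ rch n (out (pre x |ρ|) ρ)}` (labels
exist: `exists_lab`). The fibre of the last set at `y` has measure `≤ 1/2048` (`rch_succ_iff` for
`ρ`). `Goodᶜ` is in the union of `S1ᶜ`, `S2ᶜ` and `{x | 1/8 < coin.real (bad n x)}`: by
`markov_right` its measure is `≤ 2/2^13 + 8 (1/2^13 + 1/2^26 + 1/2048) ≤ 1/64`.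
-/

set_option autoImplicit false

namespace Pool.Agent.MCL

open MeasureTheory Encodable Pool.Agent.H19 Pool.Agent.AEI Pool.Agent.RJ
open Nat.Partrec (Code)

variable {f : (ℕ → Bool) → (ℕ → Bool)} {M : ℕ} {lab : List Bool → Code}

theorem bad_prod (h : Sys f M lab) (n : ℕ) :
    (coin.prod coin).real {p : (ℕ → Bool) × (ℕ → Bool) | p.1 ∈ bad f M lab n p.2} ≤
      1 / 2 ^ 13 + 1 / 2 ^ 26 + 1 / 2048 := by
  set T : Set ((ℕ → Bool) × (ℕ → Bool)) := {p | p.1 ∈ bad f M lab n p.2} with hT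
  set A : Set ((ℕ → Bool) × (ℕ → Bool)) := (S1 f M lab)ᶜ ×ˢ Set.univ with hA
  have hTm : MeasurableSet T := measurableSet_badset h.meas n
  have hAm : MeasurableSet A := (measurableSet_S1 h.meas).compl.prod MeasurableSet.univ
  have hSm : MeasurableSet (SS f M lab) := measurableSet_SS h.meas
  have hA1 : (coin.prod coin).real A ≤ 1 / 2 ^ 13 := by
    have : (coin.prod coin).real A = coin.real (S1 f M lab)ᶜ := by
      rw [hA, measureReal_def, Measure.prod_prod, measure_univ, mul_one, measureReal_def]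
    rw [this]
    exact S1_compl h
  have hC : (coin.prod coin).real (T \ (A ∪ (SS f M lab)ᶜ)) ≤ 1 / 2048 := by
    refine prod_le_of_section (hTm.diff (hAm.union hSm.compl)) ?_
    intro y
    by_cases hy : y ∈ S1 f M lab
    · obtain ⟨ρ, hρ⟩ := exists_lab h (n + 1) hy
      have h1 := (rch_succ_iff.1 hρ.2.1).2
      have hm : MeasurableSet {x : ℕ → Bool | rch M lab n (out M lab (pre x ρ.length) ρ) = true} :=
        meas_pre_pred measurable_id ρ.length (fun α => rch M lab n (out M lab α ρ) = true)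
      have h2 : coin.real {x : ℕ → Bool | rch M lab n (out M lab (pre x ρ.length) ρ) = true}ᶜ ≤
          1 / 2048 := by
        rw [probReal_compl_eq_one_sub hm]
        linarith
      refine (measureReal_mono ?_).trans h2
      rintro x ⟨hx1, hx2⟩ hx3
      simp only [Set.mem_union, not_or, Set.mem_compl_iff, not_not] at hx2
      exact hx1 ⟨hy, hx2.2, ρ, hρ, hx3⟩
    · have : {x : ℕ → Bool | (y, x) ∈ T \ (A ∪ (SS f M lab)ᶜ)} = ∅ := by
        ext x
        simp only [Set.mem_ofPred_eq, Set.mem_empty_iff_false, iff_false]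
        rintro ⟨_, hx2⟩
        exact hx2 (Or.inl ⟨hy, trivial⟩)
      rw [this]
      simp
  have hsub : T ⊆ A ∪ (SS f M lab)ᶜ ∪ (T \ (A ∪ (SS f M lab)ᶜ)) := by
    intro p hp
    by_cases hq : p ∈ A ∪ (SS f M lab)ᶜ
    · exact Or.inl hq
    · exact Or.inr ⟨hp, hq⟩
  calc (coin.prod coin).real T ≤
        (coin.prod coin).real (A ∪ (SS f M lab)ᶜ ∪ (T \ (A ∪ (SS f M lab)ᶜ))) :=
        measureReal_mono hsub
    _ ≤ (coin.prod coin).real (A ∪ (SS f M lab)ᶜ) +
        (coin.prod coin).real (T \ (A ∪ (SS f M lab)ᶜ)) := measureReal_union_le _ _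
    _ ≤ (coin.prod coin).real A + (coin.prod coin).real (SS f M lab)ᶜ +
        (coin.prod coin).real (T \ (A ∪ (SS f M lab)ᶜ)) := by
        gcongr
        exact measureReal_union_le _ _
    _ ≤ _ := by
        have := h.small
        linarith

theorem Good_compl (h : Sys f M lab) (n : ℕ) : coin.real (Good f M lab n)ᶜ ≤ 1 / 64 := by
  have h3 : coin.real {x : ℕ → Bool | 1 / 8 < coin.real (bad f M lab n x)} ≤
      (1 / 2 ^ 13 + 1 / 2 ^ 26 + 1 / 2048) / (1 / 8) := by
    have := markov_right (T := {p : (ℕ → Bool) × (ℕ → Bool) | p.1 ∈ bad f M lab n p.2})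
      (measurableSet_badset h.meas n) (ε := 1 / 8) (by norm_num)
    refine this.trans ?_
    have := bad_prod h n
    gcongr
  have hsub : (Good f M lab n)ᶜ ⊆ (S1 f M lab)ᶜ ∪ (S2 f M lab)ᶜ ∪
      {x : ℕ → Bool | 1 / 8 < coin.real (bad f M lab n x)} := by
    intro x hx
    by_contra hc
    simp only [Set.mem_union, Set.mem_compl_iff, not_or, not_not, Set.mem_ofPred_eq, not_lt] at hc
    exact hx ⟨hc.1.1, hc.1.2, hc.2⟩
  calc coin.real (Good f M lab n)ᶜ ≤ coin.real ((S1 f M lab)ᶜ ∪ (S2 f M lab)ᶜ ∪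
        {x : ℕ → Bool | 1 / 8 < coin.real (bad f M lab n x)}) := measureReal_mono hsub
    _ ≤ coin.real ((S1 f M lab)ᶜ ∪ (S2 f M lab)ᶜ) +
        coin.real {x : ℕ → Bool | 1 / 8 < coin.real (bad f M lab n x)} :=
        measureReal_union_le _ _
    _ ≤ coin.real (S1 f M lab)ᶜ + coin.real (S2 f M lab)ᶜ +
        coin.real {x : ℕ → Bool | 1 / 8 < coin.real (bad f M lab n x)} := by
        gcongr
        exact measureReal_union_le _ _
    _ ≤ 1 / 2 ^ 13 + 1 / 2 ^ 13 + (1 / 2 ^ 13 + 1 / 2 ^ 26 + 1 / 2048) / (1 / 8) := by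
        have := S1_compl h
        have := S2_compl h
        gcongr
    _ ≤ 1 / 64 := by norm_num

end Pool.Agent.MCL
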