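import Mathlib
import Pool.Agent.MCL.Defs
import Pool.Agent.RJ.ZON
import Pool.Agent.RJ.LUS

/-!
Measure classification, module LMA: uniform votes.
-/

set_option autoImplicit false

namespace Pool.Agent.MCL

open MeasureTheory Encodable Pool.Agent.H19 Pool.Agent.AEI Pool.Agent.RJ
open Nat.Partrec (Code)

theorem exists_sys {f : (ℕ → Bool) → (ℕ → Bool)} (hf : Measurable f)
    (h : ∀ i < RR, ∀ᵐ y ∂coin, TuringReducible (chi (f (T i y))) (chi (f y))) :
    ∃ (M : ℕ) (lab : List Bool → Code), Sys f M lab := by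
  classical
  let _ : MeasurableSpace Code := ⊤
  have _ : MeasurableSingletonClass Code := ⟨fun _ => trivial⟩
  have _ : Nonempty Code := ⟨Code.zero⟩
  have hev : Measurable evn := measurable_pi_iff.2 fun n => measurable_pi_apply _
  have hod : Measurable odn := measurable_pi_iff.2 fun n => measurable_pi_apply _
  have hFF : Measurable (FF f) := measurable_jn.comp (measurable_id.prodMk hf)
  have hL : Measurable fun w : ℕ → Bool => jn (odn w) (FF f (evn w)) :=
    measurable_jn.comp (hod.prodMk (hFF.comp hev))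
  have hR : Measurable fun w : ℕ → Bool => FF f (odn w) := hFF.comp hod
  -- the label
  let P : (ℕ → Bool) → ℕ → Prop := fun w n =>
    CodeComputes (Denumerable.ofNat Code n) (jn (odn w) (FF f (evn w))) (FF f (odn w)) ∨
      ∀ k, ¬ CodeComputes (Denumerable.ofNat Code k) (jn (odn w) (FF f (evn w))) (FF f (odn w))
  have hP : ∀ w, ∃ n, P w n := by
    intro w
    by_cases hw : ∃ n, CodeComputes (Denumerable.ofNat Code n) (jn (odn w) (FF f (evn w)))
        (FF f (odn w))
    · obtain ⟨n, hn⟩ := hw
      exact ⟨n, Or.inl hn⟩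
    · exact ⟨0, Or.inr (fun k hk => hw ⟨k, hk⟩)⟩
  have hc : ∀ c : Code, MeasurableSet {w | CodeComputes c (jn (odn w) (FF f (evn w)))
      (FF f (odn w))} := fun c => meas_computes hL hR c
  have hPm : ∀ n, MeasurableSet {w | P w n} := by
    intro n
    have h1 : {w | P w n} = {w | CodeComputes (Denumerable.ofNat Code n)
        (jn (odn w) (FF f (evn w))) (FF f (odn w))} ∪
        ⋂ k, {w | CodeComputes (Denumerable.ofNat Code k) (jn (odn w) (FF f (evn w)))
          (FF f (odn w))}ᶜ := by
      ext w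
      simp only [P, Set.mem_ofPred_eq, Set.mem_union, Set.mem_iInter, Set.mem_compl_iff]
    rw [h1]
    exact (hc _).union (MeasurableSet.iInter fun k => (hc _).compl)
  let l : (ℕ → Bool) → Code := fun w => Denumerable.ofNat Code (Nat.find (hP w))
  have hlm : Measurable l :=
    (measurable_from_nat (f := fun n => Denumerable.ofNat Code n)).comp (measurable_find hP hPm)
  have hl : ∀ w, TuringReducible (chi (FF f (odn w))) (chi (jn (odn w) (FF f (evn w)))) →
      CodeComputes (l w) (jn (odn w) (FF f (evn w))) (FF f (odn w)) := by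
    intro w hw
    rcases Nat.find_spec (hP w) with h1 | h1
    · exact h1
    · obtain ⟨c, hcc⟩ := turingReducible_iff.1 hw
      refine absurd hcc ?_
      have := h1 (encode c)
      rwa [Denumerable.ofNat_encode] at this
  obtain ⟨s, g, _, hg⟩ := exists_pre_fun hlm (ε := 1 / 2 ^ 26) (by positivity)
  obtain ⟨lab', hcomp, hlab⟩ := exists_computable_table s (fun _ σ => g σ)
  refine ⟨s, lab' 0, hf, hcomp.comp (Computable.const 0) Computable.id, ?_⟩
  have hlab0 : ∀ w : ℕ → Bool, lab' 0 (pre w s) = g (pre w s) := fun w =>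
    hlab 0 RR_pos _ (pre_length w s)
  -- the bad set
  have hpair := main_pair hf h
  have hnull : (coin.prod coin).real {p : (ℕ → Bool) × (ℕ → Bool) |
      ¬ TuringReducible (chi (f p.2)) (chi (jn p.2 (jn p.1 (f p.1))))} = 0 := by
    rw [measureReal_def, ae_iff.1 hpair]
    rfl
  have hE : MeasurableSet {w : ℕ → Bool | g (pre w s) ≠ l w} := by
    have h1 : Measurable fun w : ℕ → Bool => g (pre w s) := measurable_pre (β := Code) s g
    have h2 : {w : ℕ → Bool | g (pre w s) ≠ l w} =
        (⋃ c : Code, {w | g (pre w s) = c} ∩ {w | l w = c})ᶜ := by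
      ext w
      simp [eq_comm]
    rw [h2]
    exact (MeasurableSet.iUnion fun c => MeasurableSet.inter (h1 (measurableSet_singleton c))
      (hlm (measurableSet_singleton c))).compl
  have hpre : (coin.prod coin).real ((fun p : (ℕ → Bool) × (ℕ → Bool) => jn p.1 p.2) ⁻¹'
      {w : ℕ → Bool | g (pre w s) ≠ l w}) = coin.real {w : ℕ → Bool | g (pre w s) ≠ l w} := by
    rw [measureReal_def, measureReal_def, mp_jn.measure_preimage hE.nullMeasurableSet]
  have hsub : (SS f s (lab' 0))ᶜ ⊆ ((fun p : (ℕ → Bool) × (ℕ → Bool) => jn p.1 p.2) ⁻¹'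
      {w : ℕ → Bool | g (pre w s) ≠ l w}) ∪ {p : (ℕ → Bool) × (ℕ → Bool) |
      ¬ TuringReducible (chi (f p.2)) (chi (jn p.2 (jn p.1 (f p.1))))} := by
    intro p hp
    by_contra hcon
    simp only [Set.mem_union, Set.mem_ofPred_eq, Set.mem_preimage, not_or, not_not] at hcon
    refine hp ?_
    show CodeComputes (lab' 0 (pre (jn p.1 p.2) s)) (jn p.2 (FF f p.1)) (FF f p.2)
    rw [hlab0, hcon.1]
    have h1 := hl (jn p.1 p.2)
    rw [evn_jn, odn_jn] at h1
    refine h1 ?_
    exact jn_le (left_le_jn _ _) hcon.2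
  calc (coin.prod coin).real (SS f s (lab' 0))ᶜ ≤ _ := measureReal_mono hsub
    _ ≤ _ := measureReal_union_le _ _
    _ ≤ 1 / 2 ^ 26 := by
        rw [hnull, add_zero, hpre]
        exact hg

end Pool.Agent.MCL
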