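import Mathlib
import Pool.Agent.MCL.Defs

/-!
Measure classification, module VEC: vectors, the basic facts.

Sketch. `wt v ρ = count (some ρ) v / |v|`, `fr v B = #{o ∈ v : o = some ρ, ρ ∈ B} / |v|`. All
statements also hold for `v = []` (then all weights are `0`, as `x / 0 = 0`). `fr_eq_sum`: split the
filtered list by the value `some ρ` (`ρ ∈ strsLe N` as `|ρ| ≤ ml v ≤ N`, `mem_strsLe`).
-/

set_option autoImplicit false

namespace Pool.Agent.MCL

open MeasureTheory Encodable Pool.Agent.H19 Pool.Agent.AEI Pool.Agent.RJ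
open Nat.Partrec (Code)

theorem wt_nonneg (v : Vec) (ρ : List Bool) : 0 ≤ wt v ρ := by
  unfold wt; positivity

theorem wt_le_one (v : Vec) (ρ : List Bool) : wt v ρ ≤ 1 := by
  unfold wt
  apply div_le_one_of_le₀ _ (by positivity)
  exact_mod_cast List.count_le_length

theorem fr_nonneg (v : Vec) (B : Set (List Bool)) : 0 ≤ fr v B := by
  unfold fr; positivity

theorem fr_le_one (v : Vec) (B : Set (List Bool)) : fr v B ≤ 1 := by
  unfold fr
  apply div_le_one_of_le₀ _ (by positivity)
  exact_mod_cast List.length_filter_le _ _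

theorem vec_fr_le {v : Vec} {B B' : Set (List Bool)}
    (h : ∀ τ, some τ ∈ v → (τ ∈ B → τ ∈ B')) : fr v B ≤ fr v B' := by
  classical
  unfold fr
  apply div_le_div_of_nonneg_right _ (by positivity)
  norm_cast
  rw [← List.countP_eq_length_filter, ← List.countP_eq_length_filter]
  apply List.countP_mono_left
  intro o ho h1
  simp only [decide_eq_true_eq] at h1 ⊢
  obtain ⟨ρ, hρ, rfl⟩ := h1
  exact ⟨ρ, h ρ ho hρ, rfl⟩

theorem fr_mono (v : Vec) {B B' : Set (List Bool)} (h : B ⊆ B') : fr v B ≤ fr v B' :=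
  vec_fr_le fun _ _ h1 => h h1

theorem fr_congr {v : Vec} {B B' : Set (List Bool)}
    (h : ∀ τ, some τ ∈ v → (τ ∈ B ↔ τ ∈ B')) : fr v B = fr v B' :=
  le_antisymm (vec_fr_le fun τ h1 => (h τ h1).1) (vec_fr_le fun τ h1 => (h τ h1).2)

theorem vec_fr_add (v : Vec) {B B' : Set (List Bool)} (h : Disjoint B B') :
    fr v B + fr v B' = fr v (B ∪ B') := by
  classical
  unfold fr
  rw [← add_div]
  congr 1
  norm_cast
  rw [← List.countP_eq_length_filter, ← List.countP_eq_length_filter,
    ← List.countP_eq_length_filter]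
  induction v with
  | nil => simp
  | cons a v ih =>
    rw [List.countP_cons, List.countP_cons, List.countP_cons, ← ih]
    have : ∀ ρ, ρ ∈ B → ρ ∉ B' := fun ρ h1 h2 => Set.disjoint_left.1 h h1 h2
    cases a with
    | none => simp
    | some ρ =>
      by_cases h1 : ρ ∈ B
      · have h2 := this ρ h1
        simp [h1, h2]; omega
      · by_cases h2 : ρ ∈ B'
        · simp [h1, h2]; omega
        · simp [h1, h2]

theorem fr_add_le_one (v : Vec) {B B' : Set (List Bool)} (h : Disjoint B B') :
    fr v B + fr v B' ≤ 1 := by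
  rw [vec_fr_add v h]; exact fr_le_one _ _

theorem fr_singleton (v : Vec) (ρ : List Bool) : fr v {ρ} = wt v ρ := by
  classical
  unfold fr wt
  rw [← List.countP_eq_length_filter, List.count]
  congr 2
  apply List.countP_congr
  intro o _
  simp

theorem vec_foldl_ge (v : Vec) : ∀ a : ℕ,
    a ≤ v.foldl (fun a o => max a (o.getD []).length) a ∧
    ∀ ρ, some ρ ∈ v → ρ.length ≤ v.foldl (fun a o => max a (o.getD []).length) a := by
  induction v with
  | nil => intro a; simp
  | cons o v ih =>
    intro a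
    rw [List.foldl_cons]
    obtain ⟨h1, h2⟩ := ih (max a (o.getD []).length)
    refine ⟨(le_max_left _ _).trans h1, ?_⟩
    intro ρ hρ
    rcases List.mem_cons.1 hρ with h | h
    · subst h
      refine (le_trans ?_ (le_max_right a _)).trans h1
      simp
    · exact h2 ρ h

theorem length_le_ml {v : Vec} {ρ : List Bool} (h : some ρ ∈ v) : ρ.length ≤ ml v :=
  (vec_foldl_ge v 0).2 ρ h

theorem vec_foldl_le (v : Vec) {N : ℕ} (h : ∀ ρ, some ρ ∈ v → ρ.length ≤ N) : ∀ a : ℕ, a ≤ N →
    v.foldl (fun a o => max a (o.getD []).length) a ≤ N := by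
  induction v with
  | nil => intro a ha; simpa using ha
  | cons o v ih =>
    intro a ha
    rw [List.foldl_cons]
    apply ih (fun ρ hρ => h ρ (List.mem_cons_of_mem _ hρ))
    apply max_le ha
    cases o with
    | none => simp
    | some ρ => simpa using h ρ List.mem_cons_self

theorem ml_le {v : Vec} {N : ℕ} (h : ∀ ρ, some ρ ∈ v → ρ.length ≤ N) : ml v ≤ N :=
  vec_foldl_le v h 0 (Nat.zero_le _)

theorem wt_eq_zero {v : Vec} {ρ : List Bool} (h : ml v < ρ.length) : wt v ρ = 0 := by
  unfold wt
  have : v.count (some ρ) = 0 := by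
    rw [List.count_eq_zero]
    intro h1
    exact absurd (length_le_ml h1) (not_le.2 h)
  rw [this]; simp

theorem vec_fr_finset (v : Vec) (S : Finset (List Bool)) : fr v (S : Set (List Bool)) =
    ∑ ρ ∈ S, wt v ρ := by
  classical
  induction S using Finset.induction with
  | empty =>
    simp only [Finset.coe_empty, Finset.sum_empty]
    unfold fr
    simp
  | insert a S ha ih =>
    rw [Finset.sum_insert ha, ← ih, ← fr_singleton, vec_fr_add, Finset.coe_insert]
    · rfl
    · rw [Set.disjoint_singleton_left]; exact_mod_cast ha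

open Classical in
theorem fr_eq_sum (v : Vec) (B : Set (List Bool)) {N : ℕ} (hN : ml v ≤ N) :
    fr v B = ∑ ρ ∈ (strsLe N).toFinset, if ρ ∈ B then wt v ρ else 0 := by
  rw [← Finset.sum_filter, ← vec_fr_finset]
  apply fr_congr
  intro τ hτ
  have h1 : τ ∈ strsLe N := mem_strsLe.2 ((length_le_ml hτ).trans hN)
  simp [h1]

theorem sum_wt_le_one (v : Vec) (S : Finset (List Bool)) : ∑ ρ ∈ S, wt v ρ ≤ 1 := by
  rw [← vec_fr_finset]; exact fr_le_one _ _

end Pool.Agent.MCL
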