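import Mathlib
import Pool.Agent.MCL.VEC

/-!
Measure classification, module LON: the distance of two vectors.

Sketch. `l1_eq`: the terms with `|ρ| > max (ml v) (ml v')` are zero (`wt_eq_zero`). For the triangle
inequality, and for `sum_le_l1`, use a large common `N`. `l1_le_two`: `|a - b| ≤ a + b` and
`sum_wt_le_one`. `abs_fr_sub_le`: `fr_eq_sum` for both. `l1_eq_l1n`: multiply each term by
`|v| * |v'|`; `|a - b| = (a - b) + (b - a)` with truncated subtraction; the list sum over
`strsLe N` is the Finset sum if `strsLe N` has no duplicates (prove this: `nodup_strs`).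
-/

set_option autoImplicit false

namespace Pool.Agent.MCL

open MeasureTheory Encodable Pool.Agent.H19 Pool.Agent.AEI Pool.Agent.RJ
open Nat.Partrec (Code)

theorem l1_eq (v v' : Vec) {N : ℕ} (h : ml v ≤ N) (h' : ml v' ≤ N) :
    l1 v v' = ∑ ρ ∈ (strsLe N).toFinset, |wt v ρ - wt v' ρ| := by
  rw [l1]
  refine Finset.sum_subset ?_ ?_
  · intro ρ hρ
    rw [List.mem_toFinset, mem_strsLe] at hρ ⊢
    exact hρ.trans (max_le h h')
  · intro ρ _ hρ
    rw [List.mem_toFinset, mem_strsLe, not_le, max_lt_iff] at hρ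
    rw [wt_eq_zero hρ.1, wt_eq_zero hρ.2, sub_zero, abs_zero]

theorem l1_nonneg (v v' : Vec) : 0 ≤ l1 v v' :=
  Finset.sum_nonneg fun _ _ => abs_nonneg _

theorem l1_self (v : Vec) : l1 v v = 0 := by
  rw [l1]
  exact Finset.sum_eq_zero fun ρ _ => by rw [sub_self, abs_zero]

theorem l1_comm (v v' : Vec) : l1 v v' = l1 v' v := by
  rw [l1, l1, max_comm]
  exact Finset.sum_congr rfl fun ρ _ => abs_sub_comm _ _

theorem l1_triangle (v v' v'' : Vec) : l1 v v'' ≤ l1 v v' + l1 v' v'' := by
  have h1 : ml v ≤ max (ml v) (max (ml v') (ml v'')) := le_max_left _ _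
  have h2 : ml v' ≤ max (ml v) (max (ml v') (ml v'')) :=
    (le_max_left _ _).trans (le_max_right _ _)
  have h3 : ml v'' ≤ max (ml v) (max (ml v') (ml v'')) :=
    (le_max_right _ _).trans (le_max_right _ _)
  rw [l1_eq v v'' h1 h3, l1_eq v v' h1 h2, l1_eq v' v'' h2 h3, ← Finset.sum_add_distrib]
  exact Finset.sum_le_sum fun ρ _ => abs_sub_le _ _ _

theorem l1_le_two (v v' : Vec) : l1 v v' ≤ 2 := by
  have h1 : l1 v v' ≤ ∑ ρ ∈ (strsLe (max (ml v) (ml v'))).toFinset, (wt v ρ + wt v' ρ) := by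
    rw [l1]
    refine Finset.sum_le_sum fun ρ _ => ?_
    have h2 := wt_nonneg v ρ
    have h3 := wt_nonneg v' ρ
    rw [abs_le]
    constructor <;> linarith
  rw [Finset.sum_add_distrib] at h1
  have h4 := sum_wt_le_one v (strsLe (max (ml v) (ml v'))).toFinset
  have h5 := sum_wt_le_one v' (strsLe (max (ml v) (ml v'))).toFinset
  linarith

theorem sum_le_l1 (v v' : Vec) (S : Finset (List Bool)) :
    ∑ ρ ∈ S, |wt v ρ - wt v' ρ| ≤ l1 v v' := by
  have h1 : ml v ≤ max (max (ml v) (ml v')) (S.sup List.length) :=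
    (le_max_left _ _).trans (le_max_left _ _)
  have h2 : ml v' ≤ max (max (ml v) (ml v')) (S.sup List.length) :=
    (le_max_right _ _).trans (le_max_left _ _)
  rw [l1_eq v v' h1 h2]
  refine Finset.sum_le_sum_of_subset_of_nonneg ?_ fun ρ _ _ => abs_nonneg _
  intro ρ hρ
  rw [List.mem_toFinset, mem_strsLe]
  exact (Finset.le_sup (f := List.length) hρ).trans (le_max_right _ _)

theorem abs_wt_sub_le (v v' : Vec) (ρ : List Bool) : |wt v ρ - wt v' ρ| ≤ l1 v v' := by
  have h := sum_le_l1 v v' {ρ}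
  rwa [Finset.sum_singleton] at h

theorem abs_fr_sub_le (v v' : Vec) (B : Set (List Bool)) : |fr v B - fr v' B| ≤ l1 v v' := by
  classical
  rw [fr_eq_sum v B (le_max_left (ml v) (ml v')), fr_eq_sum v' B (le_max_right (ml v) (ml v')),
    ← Finset.sum_sub_distrib, l1]
  refine (Finset.abs_sum_le_sum_abs _ _).trans (Finset.sum_le_sum fun ρ _ => ?_)
  by_cases h : ρ ∈ B
  · simp only [h, if_true, le_refl]
  · simp only [h, if_false, sub_zero, abs_zero]
    exact abs_nonneg _

private theorem nodup_strsLe (n : ℕ) : (strsLe n).Nodup := by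
  rw [strsLe, List.nodup_flatMap]
  refine ⟨fun s _ => nodup_strs s, (List.nodup_range (n := n + 1)).imp ?_⟩
  intro i j hne
  rw [Function.onFun, List.disjoint_left]
  intro σ h1 h2
  rw [mem_strs'] at h1 h2
  exact hne (h1.symm.trans h2)

private theorem cast_dist (a b : ℕ) : (((a - b) + (b - a) : ℕ) : ℝ) = |(a : ℝ) - b| := by
  rcases le_total a b with h | h
  · rw [Nat.sub_eq_zero_of_le h, zero_add, Nat.cast_sub h, abs_of_nonpos, neg_sub]
    have : (a : ℝ) ≤ b := by exact_mod_cast h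
    linarith
  · rw [Nat.sub_eq_zero_of_le h, add_zero, Nat.cast_sub h, abs_of_nonneg]
    have : (b : ℝ) ≤ a := by exact_mod_cast h
    linarith

theorem l1_eq_l1n {v v' : Vec} (h : v ≠ []) (h' : v' ≠ []) :
    l1 v v' = (l1n v v' : ℝ) / (v.length * v'.length) := by
  have ha : (0 : ℝ) < v.length := by
    exact_mod_cast List.length_pos_of_ne_nil h
  have hb : (0 : ℝ) < v'.length := by
    exact_mod_cast List.length_pos_of_ne_nil h'
  rw [l1n, ← List.sum_toFinset _ (nodup_strsLe _), Nat.cast_sum, Finset.sum_div, l1]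
  refine Finset.sum_congr rfl fun ρ _ => ?_
  rw [cast_dist, wt, wt, div_sub_div _ _ ha.ne' hb.ne', abs_div,
    abs_of_pos (mul_pos ha hb)]
  push_cast
  congr 2
  ring

end Pool.Agent.MCL
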