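import Mathlib
import Pool.Agent.MCL.GAM
import Pool.Agent.MCL.CPK

/-!
Measure classification, module RAA: the cut of the real number from good stages.

Sketch. Let `Γ := ⨆ t, Gt t` (bounded by `2`). `Gt (g m) ≤ Γ ≤ Gt (g m) + 9/2^m` (`Gt_mono`,
`Gt_good`), `Aq (p, k) ↔ p/2^k < Γ`. Case 1: `Γ = a/2^b` for some naturals: `Aq q = decide
(q.1 * 2^b < a * 2^q.2)` is computable. Case 2: otherwise, for each `(p, k)` search `m` with either
`p/2^k < Gt (g m)` (then `Aq` is true) or `Gt (g m) + 9/2^m ≤ p/2^k` (then `Aq` is false); exists as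
`p/2^k ≠ Γ`. In naturals, with `t = g m`, `G = GG (pre P t)`: `p * 2^(3t+2) < G * 2^k`, and
`(G * 2^m + 9 * 2^(3t+2)) * 2^k ≤ p * 2^(3t+2+m)`. `red_of_search`, `totRec_of_pre`, `totRec_comp3`,
`comp_GG`; `GG (pre P (g m))` is total recursive in `Z` (use the oracle `P ≤ Z`, `Z ⊕ P ≡ Z`).
-/

set_option autoImplicit false

namespace Pool.Agent.MCL

open MeasureTheory Encodable Pool.Agent.H19 Pool.Agent.AEI Pool.Agent.RJ
open Nat.Partrec (Code)

variable {M : ℕ} {lab : List Bool → Code} {r : Code} {P : ℕ → Bool}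

theorem raa_pow {α : Type*} [Primcodable α] {f : α → ℕ} (hf : Computable f) :
    Computable fun a => 2 ^ f a :=
  (Primrec₂.unpaired'.1 Nat.Primrec.pow).to_comp.comp (Computable.const 2) hf

/-- Composition of a function of an initial segment of `P` with a function recursive in `Z`. -/
theorem raa_totRec {Z : ℕ → Bool} (hP : TuringReducible (chi P) (chi Z))
    {F : List Bool → ℕ} (hF : Computable F) {g : ℕ → ℕ} (hg : TotRec Z g) :
    TotRec Z fun m => F (pre P (g m)) := by
  have h1 : TotRec Z fun n => encode (pre P n) := totRec_mono (TotRec.pre P) hP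
  have h2 : Computable fun i : ℕ => F ((decode (α := List Bool) i).getD []) :=
    hF.comp (Computable.option_getD Computable.decode (Computable.const []))
  have h3 := TotRec.comp_computable h2 (h1.comp hg)
  simpa using h3

theorem raa_comp1 : Computable fun p : ℕ × (ℕ × ℕ) =>
    decide (p.1.unpair.1.unpair.1 * 2 ^ (3 * p.2.1 + 2) < p.2.2 * 2 ^ p.1.unpair.1.unpair.2) := by
  have hu : Computable fun p : ℕ × (ℕ × ℕ) => p.1.unpair.1.unpair :=
    Computable.unpair.comp (Computable.fst.comp (Computable.unpair.comp Computable.fst))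
  have h2 : Computable fun p : ℕ × (ℕ × ℕ) => 3 * p.2.1 + 2 :=
    comp_add' (comp_mul' (Computable.const 3) (Computable.fst.comp Computable.snd))
      (Computable.const 2)
  exact comp_decLt (comp_mul' (Computable.fst.comp hu) (raa_pow h2))
    (comp_mul' (Computable.snd.comp Computable.snd) (raa_pow (Computable.snd.comp hu)))

theorem raa_comp2 : Computable fun p : ℕ × (ℕ × ℕ) =>
    decide ((p.2.2 * 2 ^ p.1.unpair.2 + 9 * 2 ^ (3 * p.2.1 + 2)) * 2 ^ p.1.unpair.1.unpair.2 ≤
      p.1.unpair.1.unpair.1 * 2 ^ (3 * p.2.1 + 2 + p.1.unpair.2)) := by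
  have hu : Computable fun p : ℕ × (ℕ × ℕ) => p.1.unpair.1.unpair :=
    Computable.unpair.comp (Computable.fst.comp (Computable.unpair.comp Computable.fst))
  have hm : Computable fun p : ℕ × (ℕ × ℕ) => p.1.unpair.2 :=
    Computable.snd.comp (Computable.unpair.comp Computable.fst)
  have h2 : Computable fun p : ℕ × (ℕ × ℕ) => 3 * p.2.1 + 2 :=
    comp_add' (comp_mul' (Computable.const 3) (Computable.fst.comp Computable.snd))
      (Computable.const 2)
  refine comp_decLe (comp_mul' (comp_add' (comp_mul' (Computable.snd.comp Computable.snd)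
    (raa_pow hm)) (comp_mul' (Computable.const 9) (raa_pow h2)))
    (raa_pow (Computable.snd.comp hu))) ?_
  exact comp_mul' (Computable.fst.comp hu) (raa_pow (comp_add' h2 hm))

theorem Aq_le (h : Sys (fP r P) M lab) {Z : ℕ → Bool} {g : ℕ → ℕ}
    (hP : TuringReducible (chi P) (chi Z)) (hg : TotRec Z g)
    (hs : ∀ m, SG M lab r P m (g m) ∧ m ≤ g m) :
    TuringReducible (chi (Aq M lab r P)) (chi Z) := by
  have hbd : BddAbove (Set.range (Gt M lab r P)) :=
    ⟨2, by rintro _ ⟨t, rfl⟩; exact Gt_le_two t⟩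
  set Γ : ℝ := ⨆ t, Gt M lab r P t with hΓ
  have hle : ∀ t, Gt M lab r P t ≤ Γ := fun t => le_ciSup hbd t
  have hup : ∀ m, Γ ≤ Gt M lab r P (g m) + 9 / 2 ^ m := by
    intro m
    refine ciSup_le fun t => ?_
    rcases le_total (g m) t with ht | ht
    · exact Gt_good h (hs m).1 (hs m).2 ht
    · have h9 : (0 : ℝ) ≤ 9 / 2 ^ m := by positivity
      linarith [Gt_mono (M := M) (lab := lab) (r := r) (P := P) ht]
  have hA : ∀ p k : ℕ, Aq M lab r P (Nat.pair p k) = true ↔ (p : ℝ) / 2 ^ k < Γ := by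
    intro p k
    rw [Aq_iff, hΓ, lt_ciSup_iff hbd]
  have hA' : ∀ n : ℕ, Aq M lab r P n = true ↔ (n.unpair.1 : ℝ) / 2 ^ n.unpair.2 < Γ := by
    intro n
    rw [← hA, Nat.pair_unpair]
  by_cases hd : ∃ a b : ℕ, Γ = (a : ℝ) / 2 ^ b
  · obtain ⟨a, b, hab⟩ := hd
    rw [← totRec_bool_iff]
    have hc : Computable fun n : ℕ =>
        if decide (n.unpair.1 * 2 ^ b < a * 2 ^ n.unpair.2) then 1 else 0 := by
      refine comp_ite (c := fun n : ℕ => decide (n.unpair.1 * 2 ^ b < a * 2 ^ n.unpair.2))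
        (comp_decLt ?_ ?_) (Computable.const 1) (Computable.const 0)
      · exact comp_mul' (Computable.fst.comp Computable.unpair) (Computable.const (2 ^ b))
      · exact comp_mul' (Computable.const a)
          (raa_pow (Computable.snd.comp Computable.unpair))
    refine (TotRec.of_computable hc : Nat.RecursiveIn _ _).of_eq fun n => ?_
    have h1 : Aq M lab r P n = true ↔ n.unpair.1 * 2 ^ b < a * 2 ^ n.unpair.2 := by
      rw [hA', hab, div_lt_div_iff₀ (by positivity) (by positivity)]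
      exact_mod_cast Iff.rfl
    by_cases hn : n.unpair.1 * 2 ^ b < a * 2 ^ n.unpair.2
    · simp [hn, h1.2 hn]
    · have h2 : ¬ Aq M lab r P n = true := fun h3 => hn (h1.1 h3)
      simp [hn, h2]
  · have hG : TotRec Z fun m => GG M lab r (pre P (g m)) :=
      raa_totRec hP (comp_GG h.comp r Computable.id) hg
    have hu2 : TotRec Z fun p : ℕ => p.unpair.2 :=
      TotRec.of_computable (Computable.snd.comp Computable.unpair)
    have ht1 : ∀ n m : ℕ, (n.unpair.1 * 2 ^ (3 * g m + 2) <
        GG M lab r (pre P (g m)) * 2 ^ n.unpair.2 ↔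
        (n.unpair.1 : ℝ) / 2 ^ n.unpair.2 < Gt M lab r P (g m)) := by
      intro n m
      rw [Gt, div_lt_div_iff₀ (by positivity) (by positivity)]
      exact_mod_cast Iff.rfl
    have ht2 : ∀ n m : ℕ, ((GG M lab r (pre P (g m)) * 2 ^ m + 9 * 2 ^ (3 * g m + 2)) *
        2 ^ n.unpair.2 ≤ n.unpair.1 * 2 ^ (3 * g m + 2 + m) ↔
        Gt M lab r P (g m) + 9 / 2 ^ m ≤ (n.unpair.1 : ℝ) / 2 ^ n.unpair.2) := by
      intro n m
      rw [Gt, div_add_div _ _ (by positivity) (by positivity),
        div_le_div_iff₀ (by positivity) (by positivity), pow_add 2 (3 * g m + 2) m]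
      rw [mul_comm ((2 : ℝ) ^ (3 * g m + 2)) 9]
      exact_mod_cast Iff.rfl
    refine red_of_search
      (t := fun n m => if decide (n.unpair.1 * 2 ^ (3 * g m + 2) <
        GG M lab r (pre P (g m)) * 2 ^ n.unpair.2) || decide
        ((GG M lab r (pre P (g m)) * 2 ^ m + 9 * 2 ^ (3 * g m + 2)) *
        2 ^ n.unpair.2 ≤ n.unpair.1 * 2 ^ (3 * g m + 2 + m)) then 0 else 1)
      (o := fun n m => if decide (n.unpair.1 * 2 ^ (3 * g m + 2) <
        GG M lab r (pre P (g m)) * 2 ^ n.unpair.2) then 1 else 0) ?_ ?_ ?_ ?_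
    · have h1 := totRec_comp3 (Z := Z) (F := fun a b c =>
        if (decide (a.unpair.1.unpair.1 * 2 ^ (3 * b + 2) < c * 2 ^ a.unpair.1.unpair.2)) ||
          decide ((c * 2 ^ a.unpair.2 + 9 * 2 ^ (3 * b + 2)) * 2 ^ a.unpair.1.unpair.2 ≤
            a.unpair.1.unpair.1 * 2 ^ (3 * b + 2 + a.unpair.2)) then 0 else 1)
        (comp_ite (c := fun p : ℕ × (ℕ × ℕ) => _ || _) (comp_or raa_comp1 raa_comp2)
          (Computable.const 0) (Computable.const 1))
        (TotRec.of_computable Computable.id) (hg.comp hu2) (hG.comp hu2)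
      simpa using h1
    · have h1 := totRec_comp3 (Z := Z) (F := fun a b c =>
        if (decide (a.unpair.1.unpair.1 * 2 ^ (3 * b + 2) < c * 2 ^ a.unpair.1.unpair.2))
          then 1 else 0)
        (comp_ite raa_comp1 (Computable.const 1) (Computable.const 0))
        (TotRec.of_computable Computable.id) (hg.comp hu2) (hG.comp hu2)
      simpa using h1
    · intro n
      have hne : (n.unpair.1 : ℝ) / 2 ^ n.unpair.2 ≠ Γ := fun he => hd ⟨_, _, he.symm⟩
      have hlim : ∀ ε : ℝ, 0 < ε → ∃ m : ℕ, 9 / 2 ^ m < ε := by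
        intro ε hε
        obtain ⟨m, hm⟩ := exists_pow_lt_of_lt_one (show 0 < ε / 9 by positivity)
          (show (1 / 2 : ℝ) < 1 by norm_num)
        refine ⟨m, ?_⟩
        rw [one_div, inv_pow] at hm
        rw [div_eq_mul_inv]
        linarith
      rcases lt_or_gt_of_ne hne with hlt | hgt
      · obtain ⟨m, hm⟩ := hlim _ (sub_pos.2 hlt)
        refine ⟨m, ?_⟩
        have h1 : (n.unpair.1 : ℝ) / 2 ^ n.unpair.2 < Gt M lab r P (g m) := by
          linarith [hup m]
        rw [← ht1] at h1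
        simp [h1]
      · obtain ⟨m, hm⟩ := hlim _ (sub_pos.2 hgt)
        refine ⟨m, ?_⟩
        have h1 : Gt M lab r P (g m) + 9 / 2 ^ m ≤ (n.unpair.1 : ℝ) / 2 ^ n.unpair.2 := by
          linarith [hle (g m)]
        rw [← ht2] at h1
        simp [h1]
    · intro n m hnm
      by_cases h1 : n.unpair.1 * 2 ^ (3 * g m + 2) <
        GG M lab r (pre P (g m)) * 2 ^ n.unpair.2
      · have h2 : Aq M lab r P n = true := (hA' n).2 (((ht1 n m).1 h1).trans_le (hle _))
        simp [h1, h2]
      · by_cases h3 : (GG M lab r (pre P (g m)) * 2 ^ m + 9 * 2 ^ (3 * g m + 2)) *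
          2 ^ n.unpair.2 ≤ n.unpair.1 * 2 ^ (3 * g m + 2 + m)
        · have h2 : ¬ Aq M lab r P n = true := by
            rw [hA' n, not_lt]
            exact (hup m).trans ((ht2 n m).1 h3)
          simp [h1, h2]
        · simp [h1, h3] at hnm

end Pool.Agent.MCL
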