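import Mathlib
import Pool.Agent.MCL.RBT
import Pool.Agent.MCL.CTS

/-!
Measure classification, module RBC: `f z` is computable from `z ⊕ (P ⊕ Aq)`.

Sketch. Let `Z := jn z (jn P (Aq P))`. Search, for the bit `i`, a number `q` coding
`(n, s, p, k, t, N, ρ)` with `Aq (p, k) = false` and `tB i n s p k (pre P t) (pre z N) ρ = true`; the
output is `ρ.getD (2 * i + 1) false`. `red_of_search`: the test is total recursive in `Z`, by
`totRec_comp3` with the input, `encode (pre P t)`, and the pair of `encode (pre z N)` and the bit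
`Aq (p, k)`; `comp_tB`.
-/

set_option autoImplicit false

namespace Pool.Agent.MCL

open MeasureTheory Encodable Pool.Agent.H19 Pool.Agent.AEI Pool.Agent.RJ
open Nat.Partrec (Code)

variable {M : ℕ} {lab : List Bool → Code} {r : Code} {P : ℕ → Bool}

/-- The parts of the code of `(i, (n, s, p, k, t, N, ρ))`. -/
def rbcI (w : ℕ) : ℕ := w.unpair.1
@[inherit_doc rbcI] def rbcN (w : ℕ) : ℕ := w.unpair.2.unpair.1.unpair.1.unpair.1
@[inherit_doc rbcI] def rbcS (w : ℕ) : ℕ := w.unpair.2.unpair.1.unpair.1.unpair.2
@[inherit_doc rbcI] def rbcP (w : ℕ) : ℕ := w.unpair.2.unpair.1.unpair.2.unpair.1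
@[inherit_doc rbcI] def rbcK (w : ℕ) : ℕ := w.unpair.2.unpair.1.unpair.2.unpair.2
@[inherit_doc rbcI] def rbcT (w : ℕ) : ℕ := w.unpair.2.unpair.2.unpair.1.unpair.1
@[inherit_doc rbcI] def rbcL (w : ℕ) : ℕ := w.unpair.2.unpair.2.unpair.1.unpair.2
@[inherit_doc rbcI] def rbcR (w : ℕ) : List Bool :=
  ((decode (α := List Bool) w.unpair.2.unpair.2.unpair.2)).getD []

theorem rbc_fst {α : Type*} [Primcodable α] {f : α → ℕ} (hf : Computable f) :
    Computable fun a => (f a).unpair.1 := Computable.fst.comp (Computable.unpair.comp hf)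

theorem rbc_snd {α : Type*} [Primcodable α] {f : α → ℕ} (hf : Computable f) :
    Computable fun a => (f a).unpair.2 := Computable.snd.comp (Computable.unpair.comp hf)

theorem rbc_str {α : Type*} [Primcodable α] {f : α → ℕ} (hf : Computable f) :
    Computable fun a => ((decode (α := List Bool) (f a))).getD [] :=
  Computable.option_getD (Computable.decode.comp hf) (Computable.const [])

theorem comp_rbcI : Computable rbcI := rbc_fst Computable.id
theorem comp_rbcN : Computable rbcN := rbc_fst (rbc_fst (rbc_fst (rbc_snd Computable.id)))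
theorem comp_rbcS : Computable rbcS := rbc_snd (rbc_fst (rbc_fst (rbc_snd Computable.id)))
theorem comp_rbcP : Computable rbcP := rbc_fst (rbc_snd (rbc_fst (rbc_snd Computable.id)))
theorem comp_rbcK : Computable rbcK := rbc_snd (rbc_snd (rbc_fst (rbc_snd Computable.id)))
theorem comp_rbcT : Computable rbcT := rbc_fst (rbc_fst (rbc_snd (rbc_snd Computable.id)))
theorem comp_rbcL : Computable rbcL := rbc_snd (rbc_fst (rbc_snd (rbc_snd Computable.id)))
theorem comp_rbcR : Computable rbcR := rbc_str (rbc_snd (rbc_snd (rbc_snd Computable.id)))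

/-- A string function of an initial segment of a real below the oracle. -/
theorem totRec_pre_of {Z X : ℕ → Bool} (hX : TuringReducible (chi X) (chi Z)) {g : ℕ → ℕ}
    (hg : Computable g) : TotRec Z fun w => encode (pre X (g w)) :=
  (totRec_mono (TotRec.pre X) hX).comp (TotRec.of_computable hg)

theorem dec_red (h : Sys (fP r P) M lab) {z : ℕ → Bool} (hz : z ∈ S2 (fP r P) M lab)
    (hio : ∀ n0, ∃ n ≥ n0, z ∈ Good (fP r P) M lab n) :
    TuringReducible (chi (fP r P z)) (chi (jn z (jn P (Aq M lab r P)))) := by
  set Z : ℕ → Bool := jn z (jn P (Aq M lab r P)) with hZ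
  have hz1 : TuringReducible (chi z) (chi Z) := left_le
  have hP1 : TuringReducible (chi P) (chi Z) := left_le.trans right_le
  have hA1 : TuringReducible (chi (Aq M lab r P)) (chi Z) := right_le.trans right_le
  have hA2 : TotRec Z fun w => if Aq M lab r P (Nat.pair (rbcP w) (rbcK w)) then 1 else 0 :=
    (totRec_bool_iff.2 hA1).comp (TotRec.of_computable (comp_natpair comp_rbcP comp_rbcK))
  have hP2 : TotRec Z fun w => encode (pre P (rbcT w)) := totRec_pre_of hP1 comp_rbcT
  have hz2 : TotRec Z fun w => encode (pre z (rbcL w)) := totRec_pre_of hz1 comp_rbcL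
  refine red_of_search
    (t := fun i q => if (decide ((if Aq M lab r P (Nat.pair (rbcP (Nat.pair i q))
        (rbcK (Nat.pair i q))) then 1 else 0) = 0) &&
      tB M lab r (rbcI (Nat.pair i q)) (rbcN (Nat.pair i q)) (rbcS (Nat.pair i q))
        (rbcP (Nat.pair i q)) (rbcK (Nat.pair i q)) (pre P (rbcT (Nat.pair i q)))
        (pre z (rbcL (Nat.pair i q))) (rbcR (Nat.pair i q))) then 0 else 1)
    (o := fun i q => if (rbcR (Nat.pair i q)).getD (2 * i + 1) false then 1 else 0) ?_ ?_ ?_ ?_
  · have h1 := totRec_comp3 (Z := Z) (F := fun a b c =>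
      if (decide (c.unpair.2 = 0) && tB M lab r (rbcI a) (rbcN a) (rbcS a) (rbcP a) (rbcK a)
        ((decode (α := List Bool) b).getD []) ((decode (α := List Bool) c.unpair.1).getD [])
        (rbcR a)) then 0 else 1)
      (comp_ite (c := fun p : ℕ × (ℕ × ℕ) => _ && _)
        (comp_and (comp_decEq (rbc_snd (Computable.snd.comp Computable.snd))
            (Computable.const 0))
          (comp_tB h.comp r (comp_rbcI.comp Computable.fst) (comp_rbcN.comp Computable.fst)
            (comp_rbcS.comp Computable.fst) (comp_rbcP.comp Computable.fst)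
            (comp_rbcK.comp Computable.fst) (rbc_str (Computable.fst.comp Computable.snd))
            (rbc_str (rbc_fst (Computable.snd.comp Computable.snd)))
            (comp_rbcR.comp Computable.fst)))
        (Computable.const 0) (Computable.const 1))
      (TotRec.of_computable Computable.id) hP2 (hz2.pair hA2)
    refine (h1 : Nat.RecursiveIn _ _).of_eq fun w => ?_
    simp only [id_eq, Nat.pair_unpair, Nat.unpair_pair, encodek, Option.getD_some]
  · have hc : Computable fun w : ℕ =>
        if (rbcR w).getD (2 * rbcI w + 1) false then 1 else 0 := by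
      refine comp_ite (c := fun w : ℕ => (rbcR w).getD (2 * rbcI w + 1) false) ?_
        (Computable.const 1) (Computable.const 0)
      exact comp_getD comp_rbcR (comp_add' (comp_mul' (Computable.const 2) comp_rbcI)
        (Computable.const 1))
    refine (TotRec.of_computable hc : Nat.RecursiveIn _ _).of_eq fun w => ?_
    simp only [Nat.pair_unpair]
    rfl
  · intro i
    obtain ⟨n, s, p, k, t, N, ρ, hA, ht⟩ := tB_complete h hio i
    refine ⟨Nat.pair (Nat.pair (Nat.pair n s) (Nat.pair p k))
      (Nat.pair (Nat.pair t N) (encode ρ)), ?_⟩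
    simp only [rbcI, rbcN, rbcS, rbcP, rbcK, rbcT, rbcL, rbcR, Nat.unpair_pair, encodek,
      Option.getD_some, ht, hA]
    simp
  · intro i q hiq
    have h1 : (decide ((if Aq M lab r P (Nat.pair (rbcP (Nat.pair i q))
        (rbcK (Nat.pair i q))) then 1 else 0) = 0) &&
      tB M lab r (rbcI (Nat.pair i q)) (rbcN (Nat.pair i q)) (rbcS (Nat.pair i q))
        (rbcP (Nat.pair i q)) (rbcK (Nat.pair i q)) (pre P (rbcT (Nat.pair i q)))
        (pre z (rbcL (Nat.pair i q))) (rbcR (Nat.pair i q))) = true := by
      by_contra hne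
      simp only [hne] at hiq
      simp at hiq
    rw [Bool.and_eq_true, decide_eq_true_eq] at h1
    have hA : Aq M lab r P (Nat.pair (rbcP (Nat.pair i q)) (rbcK (Nat.pair i q))) = false := by
      by_contra hne
      rw [Bool.not_eq_false] at hne
      simp [hne] at h1
    have h2 : rbcI (Nat.pair i q) = i := by simp [rbcI]
    have h3 := tB_sound h hz hA h1.2
    rw [h2] at h3
    simp only [h3]

end Pool.Agent.MCL
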