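import Mathlib
import Pool.Agent.MCL.OUT

/-!
Measure classification, module RCH: the levels of strings.

Sketch. `rch_succ_iff`: `coin_count` for the test `fun α => rch M lab n (out M lab α ρ)`. `rch_mono`:
induction on `n`, with `rch_succ_iff`, `out_mono_str` and monotonicity of the measure. `rch_pred`:
induction on `n` (`n = 0` is `rch_zero`), monotonicity of the measure.
-/

set_option autoImplicit false

namespace Pool.Agent.MCL

open MeasureTheory Encodable Pool.Agent.H19 Pool.Agent.AEI Pool.Agent.RJ
open Nat.Partrec (Code)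

variable {M : ℕ} {lab : List Bool → Code}

theorem rch_zero (ρ : List Bool) : rch M lab 0 ρ = true := rfl

theorem rch_succ_iff {n : ℕ} {ρ : List Bool} : rch M lab (n + 1) ρ = true ↔ n + 1 ≤ ρ.length ∧
    2047 / 2048 ≤ coin.real {x | rch M lab n (out M lab (pre x ρ.length) ρ) = true} := by
  have hr : rch M lab (n + 1) ρ = (decide (n + 1 ≤ ρ.length) &&
      decide (2047 * 2 ^ ρ.length ≤ 2048 *
        ((strs ρ.length).filter fun α => rch M lab n (out M lab α ρ)).length)) := rfl
  have hc : coin.real {x | rch M lab n (out M lab (pre x ρ.length) ρ) = true} =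
      (((strs ρ.length).filter fun α => rch M lab n (out M lab α ρ)).length : ℝ) *
        (2⁻¹ : ℝ) ^ ρ.length := by
    rw [Measure.real, coin_count (fun α => rch M lab n (out M lab α ρ)) ρ.length,
      ENNReal.toReal_mul, ENNReal.toReal_pow, ENNReal.toReal_inv]
    simp
  rw [hr, Bool.and_eq_true, decide_eq_true_iff, decide_eq_true_iff, hc]
  have h2 : (0 : ℝ) < 2 ^ ρ.length := by positivity
  have key : (2047 * 2 ^ ρ.length ≤ 2048 *
        ((strs ρ.length).filter fun α => rch M lab n (out M lab α ρ)).length) ↔
      (2047 : ℝ) / 2048 ≤ (((strs ρ.length).filter fun α =>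
        rch M lab n (out M lab α ρ)).length : ℝ) * (2⁻¹ : ℝ) ^ ρ.length := by
    rw [inv_pow, ← div_eq_mul_inv, div_le_div_iff₀ (by norm_num) h2]
    constructor
    · intro h
      have h' : ((2047 * 2 ^ ρ.length : ℕ) : ℝ) ≤ ((2048 *
        ((strs ρ.length).filter fun α => rch M lab n (out M lab α ρ)).length : ℕ) : ℝ) := by
        exact_mod_cast h
      push_cast at h'
      linarith
    · intro h
      have h' : ((2047 * 2 ^ ρ.length : ℕ) : ℝ) ≤ ((2048 *
        ((strs ρ.length).filter fun α => rch M lab n (out M lab α ρ)).length : ℕ) : ℝ) := by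
        push_cast
        linarith
      exact_mod_cast h'
  rw [key]

theorem rch_mono {n : ℕ} {ρ ρ' : List Bool} (h : ρ <+: ρ') (hr : rch M lab n ρ = true) :
    rch M lab n ρ' = true := by
  induction n generalizing ρ ρ' with
  | zero => exact rch_zero _
  | succ n ih =>
    rw [rch_succ_iff] at hr ⊢
    refine ⟨hr.1.trans h.length_le, hr.2.trans (measureReal_mono ?_ (measure_ne_top _ _))⟩
    intro x hx
    exact ih (out_mono_str h) hx

theorem rch_pred {n : ℕ} {ρ : List Bool} (h : rch M lab (n + 1) ρ = true) :
    rch M lab n ρ = true := by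
  induction n generalizing ρ with
  | zero => exact rch_zero _
  | succ n ih =>
    rw [rch_succ_iff] at h ⊢
    refine ⟨by omega, h.2.trans (measureReal_mono ?_ (measure_ne_top _ _))⟩
    intro x hx
    exact ih hx

theorem rch_le {m n : ℕ} (h : m ≤ n) {ρ : List Bool} (hr : rch M lab n ρ = true) :
    rch M lab m ρ = true := by
  induction n, h using Nat.le_induction with
  | base => exact hr
  | succ n _ ih => exact ih (rch_pred hr)

theorem rch_length {n : ℕ} {ρ : List Bool} (hr : rch M lab n ρ = true) : n ≤ ρ.length := by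
  cases n with
  | zero => exact Nat.zero_le _
  | succ n => exact (rch_succ_iff.1 hr).1

end Pool.Agent.MCL
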