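import Mathlib
import Pool.Agent.MCL.VEC

/-!
Measure classification, module SFT: the soft majority vote.

Sketch. `cl t = min 1 (max 0 (4 t - 2))`. `wt_soft`: if `o ∈ l` is some string with
`|l| < 2 * count o l`, it is unique and `maj l = o`; the string is repeated
`min |l| (4 c - 2 |l|)` times, so its weight is `min 1 (4 c / |l| - 2) = cl (c / |l|)`; all other
strings have weight `≤ 1/2` in `l`, and `cl = 0` there. If there is no such `o`, `maj l = none` and
all weights of `soft l` are `0`, all weights of `l` are `≤ 1/2`.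
-/

set_option autoImplicit false

namespace Pool.Agent.MCL

open MeasureTheory Encodable Pool.Agent.H19 Pool.Agent.AEI Pool.Agent.RJ
open Nat.Partrec (Code)

theorem cl_nonneg (t : ℝ) : 0 ≤ cl t := le_min zero_le_one (le_max_left _ _)

theorem cl_le_one (t : ℝ) : cl t ≤ 1 := min_le_left _ _

theorem cl_of_ge {t : ℝ} (h : 3 / 4 ≤ t) : cl t = 1 := by
  unfold cl
  rw [min_eq_left]
  refine le_trans ?_ (le_max_right _ _)
  linarith

theorem cl_of_le {t : ℝ} (h : t ≤ 1 / 2) : cl t = 0 := by
  unfold cl
  rw [max_eq_left (by linarith)]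
  norm_num

theorem abs_cl_sub_le (s t : ℝ) : |cl s - cl t| ≤ 4 * |s - t| := by
  unfold cl
  have h1 : |min 1 (max 0 (4 * s - 2)) - min 1 (max 0 (4 * t - 2))| ≤
      |max 0 (4 * s - 2) - max 0 (4 * t - 2)| := by
    have := abs_min_sub_min_le_max (1 : ℝ) (max 0 (4 * s - 2)) 1 (max 0 (4 * t - 2))
    simpa using this
  have h2 : |max 0 (4 * s - 2) - max 0 (4 * t - 2)| ≤ |(4 * s - 2) - (4 * t - 2)| := by
    have := abs_max_sub_max_le_max (0 : ℝ) (4 * s - 2) 0 (4 * t - 2)
    simpa using this
  refine h1.trans (h2.trans ?_)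
  have : (4 * s - 2) - (4 * t - 2) = 4 * (s - t) := by ring
  rw [this, abs_mul, abs_of_pos (by norm_num : (0 : ℝ) < 4)]

theorem soft_length (l : Vec) : (soft l).length = l.length := by
  unfold soft
  rw [List.length_append, List.length_replicate, List.length_replicate]
  have := min_le_left l.length (4 * l.count (maj l) - 2 * l.length)
  omega

theorem sft_maj_spec (l : Vec) : (∃ τ, maj l = some τ ∧ l.length < 2 * l.count (some τ)) ∨
    (maj l = none ∧ ∀ τ, 2 * l.count (some τ) ≤ l.length) := by
  rcases h : (l.filter fun o => o.isSome && decide (l.length < 2 * l.count o)).head? with _ | o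
  · right
    refine ⟨by unfold maj; rw [h]; rfl, fun τ => ?_⟩
    rw [List.head?_eq_none_iff, List.filter_eq_nil_iff] at h
    by_cases h1 : some τ ∈ l
    · have := h _ h1
      simp only [Option.isSome_some, Bool.true_and, decide_eq_true_eq, not_lt] at this
      exact this
    · rw [List.count_eq_zero_of_not_mem h1]; omega
  · left
    have h1 : o ∈ l.filter fun o => o.isSome && decide (l.length < 2 * l.count o) :=
      List.mem_of_mem_head? (by rw [h]; rfl)
    rw [List.mem_filter] at h1
    obtain ⟨_, h2⟩ := h1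
    rw [Bool.and_eq_true, decide_eq_true_eq] at h2
    obtain ⟨τ, rfl⟩ := Option.isSome_iff_exists.1 h2.1
    exact ⟨τ, by unfold maj; rw [h]; rfl, h2.2⟩

theorem sft_count_add {l : Vec} {ρ τ : List Bool} (h : ρ ≠ τ) :
    l.count (some ρ) + l.count (some τ) ≤ l.length := by
  induction l with
  | nil => simp
  | cons o l ih =>
    rw [List.count_cons, List.count_cons, List.length_cons]
    by_cases h1 : o = some ρ
    · subst h1
      simp [h]; omega
    · by_cases h2 : o = some τ
      · subst h2
        simp [Ne.symm h]; omega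
      · simp [h1, h2]; omega

theorem wt_soft {l : Vec} (hl : l ≠ []) (ρ : List Bool) : wt (soft l) ρ = cl (wt l ρ) := by
  have hpos : 0 < l.length := List.length_pos_of_ne_nil hl
  have hposR : (0 : ℝ) < l.length := by exact_mod_cast hpos
  have hsmall : ∀ c : ℕ, 2 * c ≤ l.length → cl ((c : ℝ) / l.length) = 0 := by
    intro c hc
    apply cl_of_le
    rw [div_le_iff₀ hposR]
    have : (2 * c : ℝ) ≤ l.length := by exact_mod_cast hc
    linarith
  have hcnt : (soft l).count (some ρ) =
      if maj l = some ρ then min l.length (4 * l.count (maj l) - 2 * l.length) else 0 := by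
    unfold soft
    rw [List.count_append, List.count_replicate, List.count_replicate]
    by_cases h1 : maj l = some ρ
    · simp [h1]
    · simp [h1]
  unfold wt
  rw [hcnt, soft_length]
  rcases sft_maj_spec l with ⟨τ, h1, h2⟩ | ⟨h1, h2⟩
  · rw [h1]
    by_cases h3 : τ = ρ
    · subst h3
      simp only [if_true]
      have h4 : 2 * l.length ≤ 4 * l.count (some τ) := by omega
      rw [Nat.cast_min, Nat.cast_sub h4]
      unfold cl
      have h5 : (0 : ℝ) ≤ 4 * ((l.count (some τ) : ℝ) / l.length) - 2 := by
        rw [sub_nonneg, ← mul_div_assoc, le_div_iff₀ hposR]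
        exact_mod_cast h4
      rw [max_eq_right h5, ← min_div_div_right hposR.le, div_self hposR.ne']
      congr 1
      push_cast
      field_simp
    · have h4 : ¬ (some τ = some ρ) := fun h => h3 (Option.some.inj h)
      rw [if_neg h4, Nat.cast_zero, zero_div, hsmall]
      have := sft_count_add (l := l) (ρ := ρ) (τ := τ) (fun h => h3 h.symm)
      omega
  · rw [h1, if_neg (by simp), Nat.cast_zero, zero_div, hsmall _ (h2 ρ)]

theorem fr_soft_eq_one {l : Vec} (hl : l ≠ []) {ρ : List Bool} (h : 3 / 4 ≤ wt l ρ)
    {B : Set (List Bool)} (hB : ρ ∈ B) : fr (soft l) B = 1 := by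
  apply le_antisymm (fr_le_one _ _)
  have h1 : fr (soft l) {ρ} ≤ fr (soft l) B := fr_mono _ (by simpa using hB)
  rw [fr_singleton, wt_soft hl, cl_of_ge h] at h1
  exact h1

end Pool.Agent.MCL
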