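import Mathlib
import Pool.Agent.MCL.GOD
import Pool.Agent.MCL.TVI

/-!
Measure classification, module TAC: `tv` makes acceptable vectors strongly acceptable.

Sketch. `exists_vote`: let `ρ` be the label of level `n` of `x` (`x ∈ S1`, `exists_lab`), and
`B := {τ | cut n (out (pre x |τ|) τ) = some ρ}`. For `y ∈ Q`, `y ∉ bad n x`: by `of_not_bad` (and
`Lab.unique` at `x`) the label of level `n + 1` of `y` is in `B`. So
`3/4 ≤ coin.real (Q \ bad n x) ≤ fr v B = wt (vt n (pre x N) v) ρ` (`wt_vt_pre`).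
`SAcc_tv`: `fr_tv` with `N = ml v`, and for `x ∈ Good n` with a label `ρ ∈ B` of level `n` the
integrand is `1` (`exists_vote`, `Lab.unique`, `fr_soft_eq_one`). `Acc.ne_nil`: if `v = []`, all `fr` are `0`, but
`{y ∈ Q | ∃ ρ, Lab n y ρ} ⊇ Q ∩ S1` has positive measure. `Acc_of_SAcc`: `Q = Good n`.
-/

set_option autoImplicit false

namespace Pool.Agent.MCL

open MeasureTheory Encodable Pool.Agent.H19 Pool.Agent.AEI Pool.Agent.RJ
open Nat.Partrec (Code)

variable {f : (ℕ → Bool) → (ℕ → Bool)} {M : ℕ} {lab : List Bool → Code}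

theorem exists_vote (h : Sys f M lab) {n : ℕ} {v : Vec} (hv : Acc f M lab (n + 1) v)
    {x : ℕ → Bool} (hx : x ∈ Good f M lab n) : ∃ ρ, Lab f M lab n x ρ ∧ ∀ N, ml v ≤ N →
      3 / 4 ≤ wt (vt M lab n (pre x N) v) ρ := by
  obtain ⟨hx1, _, hbad⟩ := hx
  obtain ⟨ρ, hρ⟩ := exists_lab h n hx1
  refine ⟨ρ, hρ, fun N hN => ?_⟩
  rw [wt_vt_pre hN]
  obtain ⟨Q, _, hQ1, hQ2⟩ := hv
  refine le_trans ?_ (hQ2 {τ | cut M lab n (out M lab (pre x τ.length) τ) = some ρ})
  have h1 : coin.real Q - coin.real (bad f M lab n x) ≤ coin.real (Q \ bad f M lab n x) :=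
    le_measureReal_sdiff
  have h2 : coin.real (Q \ bad f M lab n x) ≤ coin.real {y | y ∈ Q ∧
      ∃ τ ∈ {τ | cut M lab n (out M lab (pre x τ.length) τ) = some ρ},
        Lab f M lab (n + 1) y τ} := by
    refine measureReal_mono ?_
    rintro y ⟨hyQ, hyb⟩
    obtain ⟨τ, ρ', hτ, hρ', hc⟩ := of_not_bad hyb
    refine ⟨hyQ, τ, ?_, hτ⟩
    rw [Set.mem_ofPred_eq, hc, hρ'.unique hρ]
  linarith

theorem Acc.ne_nil (h : Sys f M lab) {n : ℕ} {v : Vec} (hv : Acc f M lab n v) : v ≠ [] := by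
  rintro rfl
  obtain ⟨Q, _, hQ1, hQ2⟩ := hv
  have h0 := hQ2 Set.univ
  have hfr : fr ([] : Vec) Set.univ = 0 := by
    simp [fr]
  rw [hfr] at h0
  have h1 : coin.real Q - coin.real (S1 f M lab)ᶜ ≤ coin.real (Q \ (S1 f M lab)ᶜ) :=
    le_measureReal_sdiff
  have h2 : coin.real (Q \ (S1 f M lab)ᶜ) ≤
      coin.real {y | y ∈ Q ∧ ∃ ρ ∈ (Set.univ : Set (List Bool)), Lab f M lab n y ρ} := by
    refine measureReal_mono ?_
    rintro y ⟨hyQ, hyS⟩
    have hy : y ∈ S1 f M lab := by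
      by_contra hc
      exact hyS hc
    obtain ⟨ρ, hρ⟩ := exists_lab h n hy
    exact ⟨hyQ, ρ, Set.mem_univ _, hρ⟩
  have h3 := S1_compl h
  have h4 : (1 : ℝ) / 2 ^ 13 < 7 / 8 := by norm_num
  linarith

theorem Acc_of_SAcc (h : Sys f M lab) {n : ℕ} {v : Vec} (hv : SAcc f M lab n v) :
    Acc f M lab n v := by
  refine ⟨Good f M lab n, measurableSet_Good h.meas n, ?_, hv⟩
  have h1 := Good_compl h n
  have h2 : coin.real (Good f M lab n)ᶜ = 1 - coin.real (Good f M lab n) :=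
    probReal_compl_eq_one_sub (measurableSet_Good h.meas n)
  linarith

theorem SAcc_tv (h : Sys f M lab) {n : ℕ} {v : Vec} (hv : Acc f M lab (n + 1) v) :
    SAcc f M lab n (tv M lab n v) := by
  intro B
  have hne : v ≠ [] := hv.ne_nil h
  rw [fr_tv n hne B le_rfl]
  have hS : MeasurableSet {y | y ∈ Good f M lab n ∧ ∃ ρ ∈ B, Lab f M lab n y ρ} :=
    (measurableSet_Good h.meas n).inter (measurableSet_labB h.meas n B)
  rw [← integral_indicator_one hS]
  refine integral_mono ((integrable_const (1 : ℝ)).indicator hS)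
    (integrable_pre (ml v) fun α => fr (soft (vt M lab n α v)) B) fun x => ?_
  by_cases hx : x ∈ {y | y ∈ Good f M lab n ∧ ∃ ρ ∈ B, Lab f M lab n y ρ}
  · obtain ⟨hxG, ρ, hρB, hρ⟩ := hx
    obtain ⟨ρ', hρ', hvote⟩ := exists_vote h hv hxG
    have heq : ρ' = ρ := hρ'.unique hρ
    subst heq
    have h1 : fr (soft (vt M lab n (pre x (ml v)) v)) B = 1 :=
      fr_soft_eq_one (vt_ne_nil hne) (hvote _ le_rfl) hρB
    show Set.indicator _ _ x ≤ fr (soft (vt M lab n (pre x (ml v)) v)) B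
    rw [h1]
    exact Set.indicator_le_self' (fun _ _ => zero_le_one) x
  · rw [Set.indicator_of_notMem hx]
    exact fr_nonneg _ _

end Pool.Agent.MCL
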