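import Mathlib
import Pool.Agent.MCL.OUT
import Pool.Agent.MCL.LON

/-!
Measure classification, module VTM: the votes of a vector.

Sketch. `vt` is a `map`, so its counts are counts of `v` with a condition: `wt_vt`. `vt_pre`:
`out_congr` or `out_pre_le` (all strings of `v` have length `≤ ml v`). `wt_vt_pre`: the same.
`sum_vt_le`: `wt_vt`, `fr_eq_sum`, the fibres of `cut n (out α ·)` are disjoint; so the sum is
`≤ ∑ τ, |wt v τ - wt v' τ| = l1 v v'`.
-/

set_option autoImplicit false

namespace Pool.Agent.MCL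

open MeasureTheory Encodable Pool.Agent.H19 Pool.Agent.AEI Pool.Agent.RJ
open Nat.Partrec (Code)

variable {M : ℕ} {lab : List Bool → Code}

theorem vt_length (n : ℕ) (α : List Bool) (v : Vec) :
    (vt M lab n α v).length = v.length := by
  unfold vt; rw [List.length_map]

theorem vt_ne_nil {n : ℕ} {α : List Bool} {v : Vec} (h : v ≠ []) : vt M lab n α v ≠ [] := by
  intro h1
  apply h
  rw [← List.length_eq_zero_iff, ← vt_length (M := M) (lab := lab) n α v, h1]
  rfl

theorem wt_vt (n : ℕ) (α : List Bool) (v : Vec) (ρ : List Bool) :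
    wt (vt M lab n α v) ρ = fr v {τ | cut M lab n (out M lab α τ) = some ρ} := by
  classical
  unfold wt fr
  rw [vt_length, ← List.countP_eq_length_filter, List.count]
  congr 2
  unfold vt
  rw [List.countP_map]
  apply List.countP_congr
  intro o _
  cases o with
  | none => simp
  | some τ => simp

theorem vt_pre {n N : ℕ} {v : Vec} (h : ml v ≤ N) (x : ℕ → Bool) :
    vt M lab n (pre x N) v = vt M lab n (pre x (ml v)) v := by
  unfold vt
  apply List.map_congr_left
  intro o ho
  cases o with
  | none => rfl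
  | some τ =>
    have h1 := length_le_ml ho
    change cut M lab n (out M lab (pre x N) τ) = cut M lab n (out M lab (pre x (ml v)) τ)
    rw [out_pre_le (h1.trans h), out_pre_le h1]

theorem wt_vt_pre {n N : ℕ} {v : Vec} (h : ml v ≤ N) (x : ℕ → Bool) (ρ : List Bool) :
    wt (vt M lab n (pre x N) v) ρ =
      fr v {τ | cut M lab n (out M lab (pre x τ.length) τ) = some ρ} := by
  rw [wt_vt]
  apply fr_congr
  intro τ hτ
  rw [Set.mem_ofPred_eq, Set.mem_ofPred_eq, out_pre_le ((length_le_ml hτ).trans h)]

theorem sum_vt_le (n : ℕ) (α : List Bool) (v v' : Vec) (S : Finset (List Bool)) :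
    ∑ ρ ∈ S, |wt (vt M lab n α v) ρ - wt (vt M lab n α v') ρ| ≤ l1 v v' := by
  classical
  set N := max (ml v) (ml v') with hN
  have h1 : ∀ ρ, |wt (vt M lab n α v) ρ - wt (vt M lab n α v') ρ| ≤
      ∑ τ ∈ (strsLe N).toFinset, if cut M lab n (out M lab α τ) = some ρ then
        |wt v τ - wt v' τ| else 0 := by
    intro ρ
    rw [wt_vt, wt_vt, fr_eq_sum v _ (le_max_left (ml v) (ml v')),
      fr_eq_sum v' _ (le_max_right (ml v) (ml v')), ← Finset.sum_sub_distrib]
    refine (Finset.abs_sum_le_sum_abs _ _).trans (Finset.sum_le_sum fun τ _ => ?_)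
    rw [Set.mem_ofPred_eq]
    by_cases h2 : cut M lab n (out M lab α τ) = some ρ
    · simp only [h2, if_true]; exact le_refl _
    · simp only [h2, if_false]; simp
  refine (Finset.sum_le_sum fun ρ _ => h1 ρ).trans ?_
  rw [Finset.sum_comm, l1_eq v v' (le_max_left (ml v) (ml v')) (le_max_right (ml v) (ml v'))]
  refine Finset.sum_le_sum fun τ _ => ?_
  rcases h2 : cut M lab n (out M lab α τ) with _ | ρ0
  · simp
  · have h3 : ∀ ρ, (if some ρ0 = some ρ then |wt v τ - wt v' τ| else 0) =
        if ρ0 = ρ then |wt v τ - wt v' τ| else 0 := by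
      intro ρ
      by_cases h4 : ρ0 = ρ
      · simp [h4]
      · simp [h4]
    rw [Finset.sum_congr rfl fun ρ _ => h3 ρ, Finset.sum_ite_eq]
    split_ifs
    · exact le_refl _
    · exact abs_nonneg _

end Pool.Agent.MCL
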